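import Pool.Agent.Y876.ST.Stmts

set_option autoImplicit false

/-!
Task Front of project H244-STEIN.
-/

namespace Pool.Agent.Y876.ST

open Set
open H244SH (E3 IsCurve idist antipodes IsSteinhaus IsConvexSurface IsRevolution P Q PtLip TaskPL TaskQ TaskTri)
open Pm

variable [Pm]

private theorem front_norm_sq (p : E3) : ‖P p‖ ^ 2 = Real.sinh (p 0) ^ 2 + (p 1) ^ 2 := by
  rw [← Complex.normSq_eq_norm_sq, Complex.normSq_apply]
  simp only [P]
  ring

private theorem front_norm_rim (p : E3)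
    (h : (p 1) ^ 2 + (2 * (1 - ρ)) * Real.cosh (p 0) = (1 + (1 - ρ) ^ 2)) :
    ‖P p‖ = Real.cosh (p 0) - (1 - ρ) := by
  have hρ := ρ0
  have h1 := front_norm_sq p
  have h2 := Real.cosh_sq (p 0)
  have h3 := Real.one_le_cosh (p 0)
  have h4 : ‖P p‖ ^ 2 = (Real.cosh (p 0) - (1 - ρ)) ^ 2 := by nlinarith
  exact (sq_eq_sq₀ (norm_nonneg _) (by linarith)).1 h4

/-- `V p` is a nonnegative multiple of `P p`. -/
private theorem front_V_mul (p : E3) : ∃ c : ℝ, 0 ≤ c ∧ V p = (c : ℂ) * P p := by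
  unfold V
  split_ifs with h
  · exact ⟨1, zero_le_one, by simp⟩
  · exact ⟨ρ / ‖P p‖, div_nonneg ρ0.le (norm_nonneg _), rfl⟩

private theorem front_norm_sub_sq (z u : ℂ) (hu : ‖u‖ = 1)
    (h : ((starRingEnd ℂ) u * z).re = 0) :
    ‖z - ((ρ : ℝ) : ℂ) * u‖ ^ 2 = ‖z‖ ^ 2 + ρ ^ 2 := by
  have h1 : ‖u‖ ^ 2 = 1 := by rw [hu]; norm_num
  rw [← Complex.normSq_eq_norm_sq, Complex.normSq_apply] at h1
  rw [← Complex.normSq_eq_norm_sq, ← Complex.normSq_eq_norm_sq, Complex.normSq_apply,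
    Complex.normSq_apply]
  rw [Complex.mul_re, Complex.conj_re, Complex.conj_im] at h
  have h2 : (((ρ : ℝ) : ℂ) * u).re = ρ * u.re := Complex.re_ofReal_mul _ _
  have h3 : (((ρ : ℝ) : ℂ) * u).im = ρ * u.im := Complex.im_ofReal_mul _ _
  rw [Complex.sub_re, Complex.sub_im, h2, h3]
  linear_combination (-2 * ρ) * h + (ρ ^ 2) * h1

theorem taskFront : TaskFront := by
  intro hPL hG q hq hq2 γ a b hab hγ hγS hγa hγb
  -- q is on the wall
  have hρ := ρ0
  have hη := η0
  have hrim : (q 1) ^ 2 + (2 * (1 - ρ)) * Real.cosh (q 0) = (1 + (1 - ρ) ^ 2) := by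
    rcases hq with (⟨h1, h2⟩ | ⟨h1, h2⟩) | ⟨h1, h2⟩
    · rw [hq2] at h2
      have e1 := cosh_le' h1
      have e2 : Real.cosh (q 0) - 1 = η := by linarith
      rw [e2] at e1
      have e3 := Pm.h1
      have e4 : 2 * (1 - ρ) * (Real.cosh (q 0) - 1) = 2 * (1 - ρ) * η := by rw [e2]
      have e5 : (q 1) ^ 2 ≤ 0 := by nlinarith
      nlinarith [sq_nonneg (q 1)]
    · rw [hq2] at h2
      have e1 := cosh_le' h1
      have e2 : Real.cosh (q 0) - 1 = η := by linarith
      rw [e2] at e1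
      have e3 := Pm.h1
      have e4 : 2 * (1 - ρ) * (Real.cosh (q 0) - 1) = 2 * (1 - ρ) * η := by rw [e2]
      have e5 : (q 1) ^ 2 ≤ 0 := by nlinarith
      nlinarith [sq_nonneg (q 1)]
    · exact h1
  have hn : ‖P q‖ = Real.cosh (q 0) - (1 - ρ) := front_norm_rim q hrim
  have hn1 : ρ ≤ ‖P q‖ := by rw [hn]; linarith [Real.one_le_cosh (q 0)]
  have hn0 : 0 < ‖P q‖ := by linarith
  obtain ⟨u, hu⟩ : ∃ u : ℂ, u = ((‖P q‖⁻¹ : ℝ) : ℂ) * P q := ⟨_, rfl⟩
  have hu1 : ‖u‖ = 1 := by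
    rw [hu, norm_mul, Complex.norm_real, norm_inv, norm_norm, inv_mul_cancel₀ hn0.ne']
  have hre : ∀ z : ℂ, ((starRingEnd ℂ) u * z).re =
      ‖P q‖⁻¹ * ((starRingEnd ℂ) (P q) * z).re := by
    intro z
    rw [hu, map_mul, Complex.conj_ofReal, mul_assoc, Complex.re_ofReal_mul]
  have hVq : V q = ((ρ : ℝ) : ℂ) * u := by
    unfold V
    split_ifs with h
    · have h1 : ‖P q‖ = ρ := le_antisymm h hn1
      rw [hu, h1, ← mul_assoc, ← Complex.ofReal_mul, mul_inv_cancel₀ hρ.ne']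
      simp
    · rw [hu, ← mul_assoc, ← Complex.ofReal_mul, div_eq_mul_inv]
  have huu : ((starRingEnd ℂ) u * u).re = 1 := by
    rw [← Complex.normSq_eq_conj_mul_self, Complex.ofReal_re, Complex.normSq_eq_norm_sq, hu1]
    norm_num
  have hVqn : ‖V q‖ = ρ := by
    rw [hVq, norm_mul, Complex.norm_real, hu1, mul_one, Real.norm_of_nonneg hρ.le]
  have hGq : G u q = 0 := by
    unfold G
    rw [if_neg (by rw [hVqn]; exact lt_irrefl _)]
    have h1 : g1 u q = η := by
      unfold g1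
      rw [hVq, mul_left_comm, Complex.re_ofReal_mul, huu]
      norm_num
    have h2 : g2 u q = 0 := by
      unfold g2
      have h3 : tt q = η := by
        unfold tt rt
        rw [if_pos hrim, hq2, abs_zero, sub_zero, add_sub_cancel_left, max_eq_left hη.le]
      rw [hVq, h3, sub_self, sub_self]
      norm_num
    rw [h1, h2]
    exact min_eq_right hη.le
  have hGb : (ρ + η) ≤ G u (γ b) := by
    obtain ⟨c, hc, hV⟩ := front_V_mul (γ b)
    have h1 : ((starRingEnd ℂ) u * V (γ b)).re = 0 := by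
      rw [hV, mul_left_comm, Complex.re_ofReal_mul, hre, hγb]
      ring
    have h2 : g1 u (γ b) = (ρ + η) := by
      unfold g1
      rw [h1, sub_zero]
    unfold G
    split_ifs with h
    · rw [h2]
    · rw [h2]
      refine le_min le_rfl ?_
      unfold g2
      apply Real.le_sqrt_of_sq_le
      rw [front_norm_sub_sq _ u hu1 h1]
      have h3 : ρ ≤ ‖V (γ b)‖ := not_lt.1 h
      have h4 := Pm.h2
      have h5 : ρ ^ 2 ≤ ‖V (γ b)‖ ^ 2 := pow_le_pow_left₀ hρ.le h3 2
      linarith [sq_nonneg (η - tt (γ b))]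
  have key : ∀ ε : ℝ, 0 < ε →
      ENNReal.ofReal ((ρ + η)) ≤ ENNReal.ofReal (1 + ε) * eVariationOn γ (Icc a b) := by
    intro ε hε
    have h1 := hPL (Sf u) (G u) (1 + ε) (by linarith) (hG u hu1 ε hε) γ a b hab hγ
      (fun t ht => ⟨(hγS t ht).1, by
        rw [hre]
        exact mul_nonneg (inv_nonneg.2 hn0.le) (hγS t ht).2⟩)
    refine le_trans (ENNReal.ofReal_le_ofReal ?_) h1
    rw [hγa, hGq, sub_zero]
    exact hGb.trans (le_abs_self _)
  by_cases htop : eVariationOn γ (Icc a b) = ⊤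
  · rw [htop]; exact le_top
  · rw [← ENNReal.ofReal_toReal htop]
    apply ENNReal.ofReal_le_ofReal
    have hv : 0 ≤ (eVariationOn γ (Icc a b)).toReal := ENNReal.toReal_nonneg
    have key2 : ∀ ε : ℝ, 0 < ε → (ρ + η) ≤ (1 + ε) * (eVariationOn γ (Icc a b)).toReal := by
      intro ε hε
      have h1 := key ε hε
      rw [← ENNReal.ofReal_toReal htop, ← ENNReal.ofReal_mul (by linarith)] at h1
      exact (ENNReal.ofReal_le_ofReal_iff (mul_nonneg (by linarith) hv)).1 h1
    by_contra hlt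
    rw [not_le] at hlt
    rcases hv.eq_or_lt with h0 | h0
    · have := key2 1 one_pos
      rw [← h0] at this
      norm_num at this
      linarith
    · have h2 := key2 (((ρ + η) - (eVariationOn γ (Icc a b)).toReal) /
        (2 * (eVariationOn γ (Icc a b)).toReal)) (by apply div_pos <;> linarith)
      have h3 : (1 + ((ρ + η) - (eVariationOn γ (Icc a b)).toReal) /
        (2 * (eVariationOn γ (Icc a b)).toReal)) * (eVariationOn γ (Icc a b)).toReal =
        (eVariationOn γ (Icc a b)).toReal +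
          ((ρ + η) - (eVariationOn γ (Icc a b)).toReal) / 2 := by
        field_simp
      rw [h3] at h2
      linarith

end Pool.Agent.Y876.ST
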