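import Pool.Agent.Y876.ST.Stmts

/-! Task Mid: from an equator point to the opposite point. -/

set_option autoImplicit false

namespace Pool.Agent.Y876.ST

open Set
open H244SH (E3 IsCurve idist antipodes IsSteinhaus IsConvexSurface IsRevolution P Q PtLip TaskPL TaskQ TaskTri)
open Pm

variable [Pm]

theorem mid_re (q p : E3) : ((starRingEnd ℂ) (P q) * P p).re =
    Real.sinh (q 0) * Real.sinh (p 0) + q 1 * p 1 := by
  simp [P, Complex.mul_re]

theorem mid_neg (q p : E3) : ((starRingEnd ℂ) (P q) * P (-p)).re =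
    - ((starRingEnd ℂ) (P q) * P p).re := by
  rw [mid_re, mid_re]
  simp [Real.sinh_neg]
  ring

theorem mid_var_neg (γ : ℝ → E3) (s : Set ℝ) : eVariationOn (fun t => -γ t) s = eVariationOn γ s := by
  unfold eVariationOn
  simp [edist_neg_neg]

theorem mid_cont (q : E3) (γ : ℝ → E3) (s : Set ℝ) (h : ContinuousOn γ s) :
    ContinuousOn (fun t => ((starRingEnd ℂ) (P q) * P (γ t)).re) s := by
  simp only [mid_re]
  have h0 : ContinuousOn (fun t => (γ t) 0) s :=
    (EuclideanSpace.proj (𝕜 := ℝ) (0 : Fin 3)).continuous.comp_continuousOn h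
  have h1 : ContinuousOn (fun t => (γ t) 1) s :=
    (EuclideanSpace.proj (𝕜 := ℝ) (1 : Fin 3)).continuous.comp_continuousOn h
  exact (continuousOn_const.mul (Real.continuous_sinh.comp_continuousOn h0)).add
    (continuousOn_const.mul h1)

theorem taskMid : TaskMid := by
  intro hF q hq hq2
  unfold idist
  refine le_iInf fun γ => le_iInf fun hγ => ?_
  obtain ⟨hc, hS, h0, h1⟩ := hγ
  set f : ℝ → ℝ := fun t => ((starRingEnd ℂ) (P q) * P (γ t)).re with hf
  have hfc : ContinuousOn f (Icc 0 1) := mid_cont q γ _ hc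
  have hf0 : 0 ≤ f 0 := by
    simp only [hf, h0, mid_re]
    nlinarith [mul_self_nonneg (Real.sinh (q 0)), mul_self_nonneg (q 1)]
  have hf1 : f 1 ≤ 0 := by
    simp only [hf, h1]
    rw [mid_neg, mid_re]
    nlinarith [mul_self_nonneg (Real.sinh (q 0)), mul_self_nonneg (q 1)]
  let Z : Set ℝ := {t | t ∈ Icc (0 : ℝ) 1 ∧ f t = 0}
  have hZc : IsCompact Z := by
    have : Z = Icc 0 1 ∩ f ⁻¹' {0} := rfl
    rw [this]
    exact isCompact_Icc.of_isClosed_subset
      (hfc.preimage_isClosed_of_isClosed isClosed_Icc isClosed_singleton) inter_subset_left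
  have hZn : Z.Nonempty := by
    have h := intermediate_value_Icc' (zero_le_one' ℝ) hfc
    obtain ⟨t, ht, ht0⟩ := h ⟨hf1, hf0⟩
    exact ⟨t, ht, ht0⟩
  obtain ⟨t1, ht1, ht1l⟩ := hZc.exists_isLeast hZn
  obtain ⟨t2, ht2, ht2g⟩ := hZc.exists_isGreatest hZn
  have h12 : t1 ≤ t2 := ht1l ht2
  have hpos : ∀ t ∈ Icc (0 : ℝ) t1, 0 ≤ f t := by
    intro t ht
    by_contra hneg
    push Not at hneg
    have htle : t ≤ 1 := ht.2.trans ht1.1.2
    have h := intermediate_value_Icc' ht.1 (hfc.mono (Icc_subset_Icc le_rfl htle))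
    obtain ⟨s, hs, hs0⟩ := h ⟨hneg.le, hf0⟩
    have h2 : t1 ≤ s := ht1l ⟨⟨hs.1, hs.2.trans htle⟩, hs0⟩
    have h3 : s = t := le_antisymm hs.2 (ht.2.trans h2)
    rw [h3] at hs0
    linarith
  have hnegf : ∀ t ∈ Icc t2 (1 : ℝ), f t ≤ 0 := by
    intro t ht
    by_contra hp
    push Not at hp
    have htge : 0 ≤ t := ht2.1.1.trans ht.1
    have h := intermediate_value_Icc' ht.2 (hfc.mono (Icc_subset_Icc htge le_rfl))
    obtain ⟨s, hs, hs0⟩ := h ⟨hf1, hp.le⟩
    have h2 : s ≤ t2 := ht2g ⟨⟨htge.trans hs.1, hs.2⟩, hs0⟩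
    have h3 : s = t := le_antisymm (h2.trans ht.1) hs.1
    rw [h3] at hs0
    linarith
  have hA : ENNReal.ofReal ((ρ + η)) ≤ eVariationOn γ (Icc 0 t1) :=
    hF q hq hq2 γ 0 t1 ht1.1.1 (hc.mono (Icc_subset_Icc le_rfl ht1.1.2))
      (fun t ht => ⟨hS t ⟨ht.1, ht.2.trans ht1.1.2⟩, hpos t ht⟩) h0 ht1.2
  have himg : (fun t : ℝ => 1 - t) '' Icc 0 (1 - t2) = Icc t2 1 := by
    ext x
    constructor
    · rintro ⟨t, ht, rfl⟩
      simp only [mem_Icc] at ht ⊢
      constructor <;> linarith [ht.1, ht.2]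
    · intro hx
      refine ⟨1 - x, ?_, by ring⟩
      simp only [mem_Icc] at hx ⊢
      constructor <;> linarith [hx.1, hx.2]
  have hvar : eVariationOn (fun t => -γ (1 - t)) (Icc 0 (1 - t2)) = eVariationOn γ (Icc t2 1) := by
    rw [mid_var_neg (fun t => γ (1 - t))]
    have h := eVariationOn.comp_eq_of_antitoneOn γ (t := Icc (0 : ℝ) (1 - t2)) (fun t : ℝ => 1 - t)
      (by intro a _ b _ hab; simp only; linarith)
    rw [himg] at h
    exact h
  have hB : ENNReal.ofReal ((ρ + η)) ≤ eVariationOn γ (Icc t2 1) := by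
    rw [← hvar]
    refine hF q hq hq2 (fun t => -γ (1 - t)) 0 (1 - t2) (by linarith [ht2.1.2]) ?_ ?_ ?_ ?_
    · refine ContinuousOn.neg (hc.comp (by fun_prop) ?_)
      intro t ht
      simp only [mem_Icc] at ht ⊢
      constructor <;> linarith [ht.1, ht.2, ht2.1.1]
    · intro t ht
      simp only [mem_Icc] at ht
      have hm : (1 - t) ∈ Icc t2 (1 : ℝ) := ⟨by linarith [ht.2], by linarith [ht.1]⟩
      refine ⟨neg_mem_S _ (hS _ ⟨by linarith [hm.1, ht2.1.1], hm.2⟩), ?_⟩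
      rw [mid_neg]
      have := hnegf _ hm
      simp only [hf] at this
      linarith
    · simp [h1]
    · rw [mid_neg]
      have h2 := ht2.2
      simp only [hf] at h2
      have e : (1 : ℝ) - (1 - t2) = t2 := by ring
      rw [e, h2, neg_zero]
  calc ENNReal.ofReal ((2 * (ρ + η))) = ENNReal.ofReal ((ρ + η)) + ENNReal.ofReal ((ρ + η)) := by
        rw [← ENNReal.ofReal_add (add_pos ρ0 η0).le (add_pos ρ0 η0).le]
        congr 1
        ring
    _ ≤ eVariationOn γ (Icc 0 t1) + eVariationOn γ (Icc t2 1) := add_le_add hA hB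
    _ ≤ eVariationOn γ (Icc 0 t1 ∪ Icc t2 1) :=
        eVariationOn.add_le_union γ (fun x hx y hy => hx.2.trans (h12.trans hy.1))
    _ ≤ eVariationOn γ (Icc 0 1) := by
        apply eVariationOn.mono
        rintro x (hx | hx)
        · exact ⟨hx.1, hx.2.trans ht1.1.2⟩
        · exact ⟨ht2.1.1.trans hx.1, hx.2⟩

end Pool.Agent.Y876.ST
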