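import Pool.Agent.Y876.ST.Stmts

set_option autoImplicit false

/-! Task Rev: the surface is not a surface of revolution. -/

namespace Pool.Agent.Y876.ST.Rev

open Set
open H244SH (E3 IsCurve idist antipodes IsSteinhaus IsConvexSurface IsRevolution P Q PtLip TaskPL TaskQ TaskTri)
open Pm

variable [Pm]

theorem mem_S (x y z : ℝ) : (!₂[x, y, z] : E3) ∈ S ↔
    ((y ^ 2 + (2 * (1 - ρ)) * Real.cosh x ≤ (1 + (1 - ρ) ^ 2) ∧ z = (1 + η) - Real.cosh x) ∨
      (y ^ 2 + (2 * (1 - ρ)) * Real.cosh x ≤ (1 + (1 - ρ) ^ 2) ∧ z = -((1 + η) - Real.cosh x))) ∨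
      (y ^ 2 + (2 * (1 - ρ)) * Real.cosh x = (1 + (1 - ρ) ^ 2) ∧ |z| ≤ (1 + η) - Real.cosh x) := by
  simp only [S, T, B, W, mem_union, mem_ofPred_eq]
  exact Iff.rfl

theorem eta (p : E3) : (!₂[p 0, p 1, p 2] : E3) = p := by
  ext i
  fin_cases i <;> rfl

theorem inner_c (p v : E3) : inner ℝ p v = p 0 * v 0 + p 1 * v 1 + p 2 * v 2 := by
  simp [PiLp.inner_apply, Fin.sum_univ_three]
  ring

theorem norm_c (p : E3) : ‖p‖ ^ 2 = p 0 ^ 2 + p 1 ^ 2 + p 2 ^ 2 := by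
  simp [EuclideanSpace.norm_sq_eq, Fin.sum_univ_three]

theorem cosh_up (x : ℝ) (hx : x ^ 2 ≤ 1) : Real.cosh x * (1 - x ^ 2 / 2) ≤ 1 := by
  have h1 := Real.cosh_le_exp_half_sq x
  have h2 := Real.one_sub_le_exp_neg (x ^ 2 / 2)
  have h3 : Real.exp (x ^ 2 / 2) * Real.exp (-(x ^ 2 / 2)) = 1 := by
    rw [← Real.exp_add, add_neg_cancel, Real.exp_zero]
  calc Real.cosh x * (1 - x ^ 2 / 2) ≤ Real.exp (x ^ 2 / 2) * Real.exp (-(x ^ 2 / 2)) :=
        mul_le_mul h1 h2 (by linarith) (Real.exp_pos _).le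
    _ = 1 := h3

theorem cosh_up' (x : ℝ) (hx : x ^ 2 ≤ 1) : Real.cosh x ≤ 1 + x ^ 2 := by
  have h1 := cosh_up x hx
  have h2 : 0 ≤ x ^ 2 := sq_nonneg x
  by_contra h
  push Not at h
  have h3 : (1 + x ^ 2) * (1 - x ^ 2 / 2) < Real.cosh x * (1 - x ^ 2 / 2) :=
    mul_lt_mul_of_pos_right h (by linarith)
  nlinarith

theorem bdd (p : E3) (hp : p ∈ S) : ‖p‖ ≤ 3 := by
  have hρ := ρ0
  have hη := η0
  have hρ1 := ρ1
  have hηρ := η1
  have h1 : (p 1) ^ 2 + (2 * (1 - ρ)) * Real.cosh (p 0) ≤ (1 + (1 - ρ) ^ 2) ∧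
      |p 2| ≤ (1 + η) - Real.cosh (p 0) := by
    rcases hp with (⟨h1, h2⟩ | ⟨h1, h2⟩) | ⟨h1, h2⟩
    · refine ⟨h1, ?_⟩
      rw [h2, abs_of_nonneg (sub_nonneg.2 (cosh_le h1))]
    · refine ⟨h1, ?_⟩
      rw [h2, abs_neg, abs_of_nonneg (sub_nonneg.2 (cosh_le h1))]
    · exact ⟨h1.le, h2⟩
  obtain ⟨h1, h2⟩ := h1
  have hcu := cosh_le h1
  have h3 := Real.one_le_cosh (p 0)
  have h4 : |p 0| ≤ 2 := by
    have h5 : Real.cosh |p 0| = Real.cosh (p 0) := Real.cosh_abs _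
    have h6 := Real.add_one_le_exp |p 0|
    have h7 : Real.exp |p 0| / 2 ≤ Real.cosh |p 0| := by
      rw [Real.cosh_eq]
      have := Real.exp_pos (-|p 0|)
      linarith
    linarith
  have h5 : ‖p‖ ^ 2 ≤ 3 ^ 2 := by
    rw [norm_c]
    have h6 : (p 0) ^ 2 ≤ 4 := by
      rw [← sq_abs]
      nlinarith [abs_nonneg (p 0)]
    have h7 : (p 2) ^ 2 ≤ 1 := by
      rw [← sq_abs]
      nlinarith [abs_nonneg (p 2)]
    have h8 : (p 1) ^ 2 ≤ ρ ^ 2 := by nlinarith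
    nlinarith
  exact le_of_sq_le_sq h5 (by norm_num)

theorem small (x y z : ℝ) (h : (!₂[x, y, z] : E3) ∈ S) (hn : x ^ 2 + y ^ 2 + z ^ 2 = η ^ 2) :
    x = 0 ∧ y = 0 := by
  have hρ := ρ0
  have hη := η0
  have hρ1 := ρ1
  have hηρ := η1
  have hx : x ^ 2 ≤ 1 := by nlinarith [sq_nonneg y, sq_nonneg z]
  have h1 := cosh_up' x hx
  have h1' := cosh_up x hx
  have h2 := Real.one_le_cosh x
  rw [mem_S] at h
  have key : z ^ 2 = ((1 + η) - Real.cosh x) ^ 2 → x = 0 ∧ y = 0 := by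
    intro hz
    have h0 : 0 < 1 - 2 * η := by linarith
    have h3 : (1 - 2 * η) * x ^ 2 + y ^ 2 ≤ 0 := by
      have e1 : η * (Real.cosh x - 1) ≤ η * x ^ 2 := mul_le_mul_of_nonneg_left (by linarith) hη.le
      nlinarith [sq_nonneg (Real.cosh x - 1)]
    have h4 : 0 ≤ (1 - 2 * η) * x ^ 2 := mul_nonneg h0.le (sq_nonneg x)
    have h5 : (1 - 2 * η) * x ^ 2 = 0 := by linarith [sq_nonneg y]
    constructor
    · have : x ^ 2 = 0 := (mul_eq_zero.1 h5).resolve_left h0.ne'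
      exact pow_eq_zero_iff (two_ne_zero) |>.1 this
    · have : y ^ 2 = 0 := by linarith [sq_nonneg y]
      exact pow_eq_zero_iff (two_ne_zero) |>.1 this
  rcases h with (⟨-, hz⟩ | ⟨-, hz⟩) | ⟨hw, -⟩
  · exact key (by rw [hz])
  · exact key (by rw [hz, neg_sq])
  · exfalso
    have hcu := cosh_le hw.le
    have e1 : 2 * (Real.cosh x - 1) ≤ (1 + η) * x ^ 2 := by
      have e2 : Real.cosh x * x ^ 2 ≤ (1 + η) * x ^ 2 := mul_le_mul_of_nonneg_right hcu (sq_nonneg x)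
      linarith
    have e3 : (1 - ρ) * (2 * (Real.cosh x - 1)) ≤ (1 - ρ) * ((1 + η) * x ^ 2) :=
      mul_le_mul_of_nonneg_left e1 (by linarith)
    have e4 : (1 - ρ) * (1 + η) ≤ 1 := by nlinarith [mul_pos hρ hη]
    have e5 : (1 - ρ) * ((1 + η) * x ^ 2) ≤ x ^ 2 := by
      calc (1 - ρ) * ((1 + η) * x ^ 2) = ((1 - ρ) * (1 + η)) * x ^ 2 := by ring
        _ ≤ 1 * x ^ 2 := mul_le_mul_of_nonneg_right e4 (sq_nonneg x)
        _ = x ^ 2 := one_mul _
    have e6 : η ^ 2 < ρ ^ 2 := by nlinarith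
    nlinarith [sq_nonneg z]

theorem memN : (!₂[0, 0, η] : E3) ∈ S := by
  rw [mem_S]
  left; left
  rw [Real.cosh_zero]
  constructor
  · nlinarith [sq_nonneg ρ]
  · ring

theorem memQ : (!₂[0, ρ, 0] : E3) ∈ S := by
  rw [mem_S]
  right
  rw [Real.cosh_zero]
  constructor
  · ring
  · rw [abs_zero]
    linarith [η0]

theorem notMemQ : (!₂[ρ, 0, 0] : E3) ∉ S := by
  rw [mem_S]
  have hρ := ρ0
  have hρ1 := ρ1
  have hh := Pm.h1
  have h1 := cosh_up ρ (by nlinarith)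
  rintro ((⟨h2, h⟩ | ⟨h2, h⟩) | ⟨h, -⟩)
  · have h3 := cosh_le' h2
    have h4 : Real.cosh ρ - 1 = η := by linarith
    rw [h4] at h3
    linarith
  · have h3 := cosh_le' h2
    have h4 : Real.cosh ρ - 1 = η := by linarith
    rw [h4] at h3
    linarith
  · have h3 : 2 * (1 - ρ) * (Real.cosh ρ - 1) = ρ ^ 2 := by nlinarith
    have h4 : (Real.cosh ρ - 1) * (1 - ρ ^ 2 / 2) ≤ ρ ^ 2 / 2 := by nlinarith
    have h5 : ρ ^ 2 * (1 - ρ ^ 2 / 2) ≤ (1 - ρ) * ρ ^ 2 := by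
      have h6 := mul_le_mul_of_nonneg_left h4 (show 0 ≤ 2 * (1 - ρ) by linarith)
      have h7 : 2 * (1 - ρ) * ((Real.cosh ρ - 1) * (1 - ρ ^ 2 / 2)) = ρ ^ 2 * (1 - ρ ^ 2 / 2) := by
        rw [← mul_assoc, h3]
      rw [h7] at h6
      linarith
    have h8 : 0 < ρ ^ 3 := by positivity
    have h9 : ρ ^ 4 ≤ ρ ^ 3 := pow_le_pow_of_le_one hρ.le hρ1.le (by norm_num)
    nlinarith

theorem taskRev : TaskRev := by
  rintro ⟨o, v', hv', H'⟩
  -- normalise
  obtain ⟨v, hv, H⟩ : ∃ v : E3, ‖v‖ = 1 ∧ ∀ x ∈ S, ∀ y : E3,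
      inner ℝ (y - o) v = inner ℝ (x - o) v → ‖y - o‖ = ‖x - o‖ → y ∈ S := by
    have hn : ‖v'‖ ≠ 0 := norm_ne_zero_iff.2 hv'
    refine ⟨‖v'‖⁻¹ • v', ?_, ?_⟩
    · rw [norm_smul, norm_inv, norm_norm, inv_mul_cancel₀ hn]
    · intro x hx y h1 h2
      rw [inner_smul_right, inner_smul_right] at h1
      exact H' x hx y (mul_left_cancel₀ (inv_ne_zero hn) h1) h2
  have hvv : inner ℝ v v = (1 : ℝ) := by rw [real_inner_self_eq_norm_sq, hv]; norm_num
  let L : E3 → E3 := fun x => (2 * inner ℝ x v) • v - x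
  have hL1 : ∀ x, inner ℝ (L x) v = inner ℝ x v := by
    intro x
    change inner ℝ ((2 * inner ℝ x v) • v - x) v = _
    rw [inner_sub_left, inner_smul_left, hvv]
    simp
    ring
  have hL2 : ∀ x, ‖L x‖ = ‖x‖ := by
    intro x
    have h1 : ‖L x‖ ^ 2 = ‖x‖ ^ 2 := by
      change ‖(2 * inner ℝ x v) • v - x‖ ^ 2 = _
      rw [norm_sub_sq_real, inner_smul_left, norm_smul, hv, real_inner_comm, Real.norm_eq_abs,
        mul_one, sq_abs]
      simp
      ring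
    exact (sq_eq_sq₀ (norm_nonneg _) (norm_nonneg _)).1 h1
  have hLadd : ∀ x y, L (x + y) = L x + L y := by
    intro x y
    change (2 * inner ℝ (x + y) v) • v - (x + y) = ((2 * inner ℝ x v) • v - x) +
      ((2 * inner ℝ y v) • v - y)
    rw [inner_add_left]
    module
  have hLneg : ∀ x, L (-x) = - L x := by
    intro x
    change (2 * inner ℝ (-x) v) • v - (-x) = - ((2 * inner ℝ x v) • v - x)
    rw [inner_neg_left]
    module
  have hLL : ∀ x, L (L x) = x := by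
    intro x
    change (2 * inner ℝ (L x) v) • v - L x = x
    rw [hL1]
    change (2 * inner ℝ x v) • v - ((2 * inner ℝ x v) • v - x) = x
    abel
  have hh : ∀ x ∈ S, o + L (x - o) ∈ S := by
    intro x hx
    refine H x hx _ ?_ ?_
    · rw [add_sub_cancel_left, hL1]
    · rw [add_sub_cancel_left, hL2]
  set w : E3 := o - L o with hw
  have hstep : ∀ x ∈ S, x - (2 : ℝ) • w ∈ S := by
    intro x hx
    have h1 := neg_mem_S _ (hh _ (neg_mem_S _ (hh x hx)))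
    have e : -(o + L (-(o + L (x - o)) - o)) = x - (2 : ℝ) • w := by
      have e1 : -(o + L (x - o)) - o = -(o + (o + L (x - o))) := by abel
      rw [e1, hLneg, hLadd, hLadd, hLL, hw]
      module
    rwa [e] at h1
  have hiter : ∀ n : ℕ, ∀ x ∈ S, x - ((2 * n : ℕ) : ℝ) • w ∈ S := by
    intro n
    induction n with
    | zero => intro x hx; simpa using hx
    | succ n ih =>
      intro x hx
      have h1 := hstep _ (ih x hx)
      have e : x - ((2 * n : ℕ) : ℝ) • w - (2 : ℝ) • w = x - ((2 * (n + 1) : ℕ) : ℝ) • w := by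
        push_cast
        module
      rwa [e] at h1
  have hw0 : w = 0 := by
    by_contra hne
    have hpos : 0 < ‖w‖ := norm_pos_iff.2 hne
    obtain ⟨n, hn⟩ := exists_nat_gt (3 / ‖w‖)
    rw [div_lt_iff₀ hpos] at hn
    have h1 := bdd _ (hiter n _ memN)
    have h2 := bdd _ memN
    have h3 : ‖((2 * n : ℕ) : ℝ) • w‖ ≤ 6 := by
      have e : ((2 * n : ℕ) : ℝ) • w = (!₂[0, 0, η] : E3) -
          ((!₂[0, 0, η] : E3) - ((2 * n : ℕ) : ℝ) • w) := by abel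
      rw [e]
      exact (norm_sub_le _ _).trans (by linarith)
    rw [norm_smul, Real.norm_eq_abs, abs_of_nonneg (by positivity)] at h3
    push_cast at h3
    linarith
  have ho : o = (inner ℝ o v : ℝ) • v := by
    have h1 : (2 : ℝ) • o = (2 : ℝ) • ((inner ℝ o v : ℝ) • v) := by
      have h2 : o - ((2 * inner ℝ o v) • v - o) = 0 := hw0
      have h3 : (2 : ℝ) • o - (2 : ℝ) • ((inner ℝ o v : ℝ) • v) =
          o - ((2 * inner ℝ o v) • v - o) := by module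
      rw [h2] at h3
      exact sub_eq_zero.1 h3
    exact smul_right_injective E3 (two_ne_zero) h1
  have H2 : ∀ x ∈ S, ∀ y : E3, inner ℝ y v = inner ℝ x v → ‖y‖ ^ 2 = ‖x‖ ^ 2 → y ∈ S := by
    intro x hx y h1 h2
    refine H x hx y ?_ ?_
    · rw [inner_sub_left, inner_sub_left, h1]
    · have h3 : ‖y - o‖ ^ 2 = ‖x - o‖ ^ 2 := by
        rw [norm_sub_sq_real, norm_sub_sq_real, ho, inner_smul_right, inner_smul_right, h1, h2]
      exact (sq_eq_sq₀ (norm_nonneg _) (norm_nonneg _)).1 h3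
  -- coordinates
  obtain ⟨a, b, c, ha, hb, hc⟩ : ∃ a b c : ℝ, a = v 0 ∧ b = v 1 ∧ c = v 2 := ⟨_, _, _, rfl, rfl, rfl⟩
  have habc : a ^ 2 + b ^ 2 + c ^ 2 = 1 := by
    rw [ha, hb, hc, ← norm_c, hv]
    norm_num
  have H3 : ∀ x1 x2 x3 : ℝ, (!₂[x1, x2, x3] : E3) ∈ S → ∀ y1 y2 y3 : ℝ,
      y1 * a + y2 * b + y3 * c = x1 * a + x2 * b + x3 * c →
      y1 ^ 2 + y2 ^ 2 + y3 ^ 2 = x1 ^ 2 + x2 ^ 2 + x3 ^ 2 → (!₂[y1, y2, y3] : E3) ∈ S := by
    intro x1 x2 x3 hx y1 y2 y3 h1 h2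
    refine H2 _ hx _ ?_ ?_
    · rw [inner_c, inner_c, ← ha, ← hb, ← hc]
      exact h1
    · rw [norm_c, norm_c]
      exact h2
  have hη := η0
  have h1 := H3 0 0 (η) memN (2 * c * a * η) (2 * c * b * η) ((2 * c ^ 2 - 1) * η)
    (by linear_combination (2 * c * η) * habc)
    (by linear_combination (4 * c ^ 2 * η ^ 2) * habc)
  have h2 := small _ _ _ h1 (by linear_combination (4 * c ^ 2 * η ^ 2) * habc)
  have hc0 : c ≠ 0 := by
    intro hc0
    have h3 := H3 0 0 (η) memN (-b * η) (a * η) 0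
      (by rw [hc0]; ring) (by rw [hc0] at habc; linear_combination (η ^ 2) * habc)
    have h4 := small _ _ _ h3 (by rw [hc0] at habc; linear_combination (η ^ 2) * habc)
    have h5 : b = 0 := neg_eq_zero.1 ((mul_eq_zero.1 h4.1).resolve_right hη.ne')
    have h6 : a = 0 := (mul_eq_zero.1 h4.2).resolve_right hη.ne'
    rw [h5, h6, hc0] at habc
    norm_num at habc
  have ha0 : a = 0 := by
    have h3 : c * a = 0 := by
      have := (mul_eq_zero.1 h2.1).resolve_right hη.ne'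
      linarith
    exact (mul_eq_zero.1 h3).resolve_left hc0
  have hb0 : b = 0 := by
    have h3 : c * b = 0 := by
      have := (mul_eq_zero.1 h2.2).resolve_right hη.ne'
      linarith
    exact (mul_eq_zero.1 h3).resolve_left hc0
  exact notMemQ (H3 0 (ρ) 0 memQ (ρ) 0 0 (by rw [ha0, hb0]; ring) (by ring))

end Pool.Agent.Y876.ST.Rev

namespace Pool.Agent.Y876.ST

theorem taskRev [Pm] : TaskRev := Rev.taskRev

end Pool.Agent.Y876.ST
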