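import Pool.Agent.H244R4.SH.RevBridge
import Pool.Agent.H244R4.SH.TaskTri
import Pool.Agent.H244R4.SH.PL
import Pool.Agent.H244R4.SH.TaskQ

/-! A two-parameter family of Steinhaus surfaces without rotational symmetry (helper876). The construction
and the proofs of this folder are those of project H244-STEIN (starting files `H244R4/SH`, `H663R4/SH`) with
the numbers `1/10`, `1/100` replaced by parameters `ρ`, `η`. Definitions and task statements. -/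

set_option autoImplicit false

namespace Pool.Agent.Y876.ST

open Set
open H244SH (E3 IsCurve idist antipodes IsSteinhaus IsConvexSurface IsRevolution P Q PtLip TaskPL TaskQ TaskTri)

/-- the parameters: radius of the round part, half of the height of the wall above it -/
class Pm where
  ρ : ℝ
  η : ℝ
  ρ0 : 0 < ρ
  ρ1 : ρ < 1
  h1 : ρ ^ 2 < 2 * (1 - ρ) * η
  h2 : (ρ + η) ^ 2 ≤ 2 * ρ ^ 2

open Pm

variable [Pm]

theorem η0 : 0 < η := by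
  have a := ρ0
  have b := ρ1
  have c := Pm.h1
  by_contra h
  push Not at h
  have : 2 * (1 - ρ) * η ≤ 0 := mul_nonpos_of_nonneg_of_nonpos (by linarith) h
  have : 0 < ρ ^ 2 := by positivity
  linarith

theorem η1 : 2 * η ≤ ρ := by
  have a := ρ0
  have c := Pm.h2
  have d := sq_nonneg η
  have h : ρ * (2 * η) ≤ ρ * ρ := by nlinarith
  exact le_of_mul_le_mul_left h a

/-- the bound for `cosh` -/
theorem cosh_le {y C : ℝ} (h : y ^ 2 + (2 * (1 - ρ)) * C ≤ (1 + (1 - ρ) ^ 2)) : C ≤ 1 + η := by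
  have b := ρ1
  have c := Pm.h1
  have d := sq_nonneg y
  have h : 2 * (1 - ρ) * C ≤ 2 * (1 - ρ) * (1 + η) := by nlinarith
  exact le_of_mul_le_mul_left h (by linarith)

theorem cosh_le' {y C : ℝ} (h : y ^ 2 + (2 * (1 - ρ)) * C ≤ (1 + (1 - ρ) ^ 2)) :
    2 * (1 - ρ) * (C - 1) ≤ ρ ^ 2 := by
  have d := sq_nonneg y
  nlinarith

/-- the convex body  -/
def K : Set E3 := {p | (p 1) ^ 2 + (2 * (1 - ρ)) * Real.cosh (p 0) ≤ (1 + (1 - ρ) ^ 2) ∧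
  |p 2| ≤ (1 + η) - Real.cosh (p 0)}

/-- top, bottom and wall -/
def T : Set E3 := {p | (p 1) ^ 2 + (2 * (1 - ρ)) * Real.cosh (p 0) ≤ (1 + (1 - ρ) ^ 2) ∧
  p 2 = (1 + η) - Real.cosh (p 0)}
def B : Set E3 := {p | (p 1) ^ 2 + (2 * (1 - ρ)) * Real.cosh (p 0) ≤ (1 + (1 - ρ) ^ 2) ∧
  p 2 = -((1 + η) - Real.cosh (p 0))}
def W : Set E3 := {p | (p 1) ^ 2 + (2 * (1 - ρ)) * Real.cosh (p 0) = (1 + (1 - ρ) ^ 2) ∧
  |p 2| ≤ (1 + η) - Real.cosh (p 0)}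
def S : Set E3 := T ∪ B ∪ W

open Classical in
/-- distance from the pole on the upper half, folded -/
noncomputable def rt (p : E3) : ℝ :=
  if (p 1) ^ 2 + (2 * (1 - ρ)) * Real.cosh (p 0) = (1 + (1 - ρ) ^ 2) then (ρ + η) - |p 2| else ‖P p‖

open Classical in
noncomputable def V (p : E3) : ℂ :=
  if ‖P p‖ ≤ ρ then P p else ((ρ / ‖P p‖ : ℝ) : ℂ) * P p

noncomputable def tt (p : E3) : ℝ := max (rt p - ρ) 0

noncomputable def g1 (u : ℂ) (p : E3) : ℝ := (ρ + η) - ((starRingEnd ℂ) u * V p).re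
noncomputable def g2 (u : ℂ) (p : E3) : ℝ :=
  Real.sqrt (‖V p - ((ρ : ℝ) : ℂ) * u‖ ^ 2 + (η - tt p) ^ 2)
open Classical in
noncomputable def G (u : ℂ) (p : E3) : ℝ :=
  if ‖V p‖ < ρ then g1 u p else min (g1 u p) (g2 u p)

/-- the front part of the surface -/
def Sf (u : ℂ) : Set E3 := {p | p ∈ S ∧ 0 ≤ ((starRingEnd ℂ) u * P p).re}

/-- the map to the round cylinder does not increase distances on each piece -/
def TaskKE : Prop := ∀ p p' : E3, ((p ∈ T ∧ p' ∈ T) ∨ (p ∈ B ∧ p' ∈ B) ∨ (p ∈ W ∧ p' ∈ W)) →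
  ‖V p - V p'‖ ^ 2 + (tt p - tt p') ^ 2 ≤ Q p p'

def TaskG : Prop := TaskKE → TaskQ → ∀ (u : ℂ), ‖u‖ = 1 → ∀ ε : ℝ, 0 < ε →
  PtLip (Sf u) (G u) (1 + ε)

/-- from the equator to the middle, staying in front, costs at least `ρ + η` -/
def TaskFront : Prop := TaskPL → (∀ (u : ℂ), ‖u‖ = 1 → ∀ ε : ℝ, 0 < ε → PtLip (Sf u) (G u) (1 + ε)) →
  ∀ q ∈ S, q 2 = 0 → ∀ (γ : ℝ → E3) (a b : ℝ), a ≤ b → ContinuousOn γ (Icc a b) →
  (∀ t ∈ Icc a b, γ t ∈ S ∧ 0 ≤ ((starRingEnd ℂ) (P q) * P (γ t)).re) → γ a = q →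
  ((starRingEnd ℂ) (P q) * P (γ b)).re = 0 →
  ENNReal.ofReal ((ρ + η)) ≤ eVariationOn γ (Icc a b)

/-- from an equator point to the opposite point -/
def TaskMid : Prop :=
  (∀ q ∈ S, q 2 = 0 → ∀ (γ : ℝ → E3) (a b : ℝ), a ≤ b → ContinuousOn γ (Icc a b) →
    (∀ t ∈ Icc a b, γ t ∈ S ∧ 0 ≤ ((starRingEnd ℂ) (P q) * P (γ t)).re) → γ a = q →
    ((starRingEnd ℂ) (P q) * P (γ b)).re = 0 →
    ENNReal.ofReal ((ρ + η)) ≤ eVariationOn γ (Icc a b)) →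
  ∀ q ∈ S, q 2 = 0 → ENNReal.ofReal ((2 * (ρ + η))) ≤ idist S q (-q)

/-- lower bound for all points -/
def TaskLower : Prop := TaskTri → (∀ q ∈ S, q 2 = 0 → ENNReal.ofReal ((2 * (ρ + η))) ≤ idist S q (-q)) →
  ∀ p ∈ S, ENNReal.ofReal ((2 * (ρ + η))) ≤ idist S p (-p)

/-- the isometric maps of the plane region onto top and bottom -/
noncomputable def Psi (w : ℂ) : E3 :=
  !₂[Real.arsinh w.re, w.im, (1 + η) - Real.sqrt (1 + w.re ^ 2)]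
noncomputable def Psi' (w : ℂ) : E3 :=
  !₂[Real.arsinh w.re, w.im, -((1 + η) - Real.sqrt (1 + w.re ^ 2))]
def TR : Set ℂ := {w | ‖w‖ + (1 - ρ) ≤ Real.sqrt (1 + w.re ^ 2)}

/-- straight segments in the plane region -/
def TaskSeg : Prop := TaskTri → (∀ w w' : ℂ, segment ℝ w w' ⊆ TR →
  idist S (Psi w) (Psi w') ≤ ENNReal.ofReal ‖w - w'‖ ∧
  idist S (Psi' w) (Psi' w') ≤ ENNReal.ofReal ‖w - w'‖)

/-- vertical segments in the wall -/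
def TaskVert : Prop := TaskTri → ∀ p ∈ W, ∀ p' ∈ W, p 0 = p' 0 → p 1 = p' 1 →
  idist S p p' ≤ ENNReal.ofReal |p 2 - p' 2|

/-- structure of the plane region; T, B are the images of TR, the rim in each direction -/
def TaskRim : Prop :=
  (∀ p ∈ T, P p ∈ TR ∧ Psi (P p) = p) ∧ (∀ p ∈ B, P p ∈ TR ∧ Psi' (P p) = p) ∧
  (∀ w ∈ TR, ∀ s ∈ Icc (0 : ℝ) 1, (s : ℂ) * w ∈ TR) ∧
  (∀ w : ℂ, ‖w‖ ≤ ρ → w ∈ TR) ∧
  (∀ p ∈ W, P p ∈ TR ∧ Psi (P p) ∈ W ∧ Psi' (P p) ∈ W ∧ (Psi (P p)) 0 = p 0 ∧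
    (Psi (P p)) 1 = p 1 ∧ (Psi' (P p)) 0 = p 0 ∧ (Psi' (P p)) 1 = p 1 ∧
    (Psi (P p)) 2 = (ρ + η) - ‖P p‖ ∧ (Psi' (P p)) 2 = -((ρ + η) - ‖P p‖) ∧ |p 2| ≤ (ρ + η) - ‖P p‖) ∧
  (∀ w ∈ TR, w ≠ 0 → ∃ c : ℝ, 1 ≤ c ∧ (c : ℂ) * w ∈ TR ∧ Psi ((c : ℂ) * w) ∈ W ∧
    Psi' ((c : ℂ) * w) ∈ W)

/-- upper bound, strict for all points except the opposite one -/
def TaskUp : Prop := TaskTri →
  (∀ w w' : ℂ, segment ℝ w w' ⊆ TR →
    idist S (Psi w) (Psi w') ≤ ENNReal.ofReal ‖w - w'‖ ∧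
    idist S (Psi' w) (Psi' w') ≤ ENNReal.ofReal ‖w - w'‖) →
  (∀ p ∈ W, ∀ p' ∈ W, p 0 = p' 0 → p 1 = p' 1 → idist S p p' ≤ ENNReal.ofReal |p 2 - p' 2|) →
  TaskRim → ∀ p ∈ S, ∀ q ∈ S, q ≠ -p → idist S p q < ENNReal.ofReal ((2 * (ρ + η)))

def TaskConv : Prop := IsCompact K ∧ Convex ℝ K ∧ (interior K).Nonempty ∧ S = frontier K

def TaskRev : Prop := ¬ IsRevolution S

lemma neg_mem_S (p : E3) (hp : p ∈ S) : -p ∈ S := by
  rcases hp with (⟨h1, h2⟩ | ⟨h1, h2⟩) | ⟨h1, h2⟩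
  · left; right
    refine ⟨by simpa using h1, ?_⟩
    simp [h2]
  · left; left
    refine ⟨by simpa using h1, ?_⟩
    simp [h2]
  · right
    exact ⟨by simpa using h1, by simpa using h2⟩


end Pool.Agent.Y876.ST
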