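import Mathlib
import Pool.Agent.Y876.ST.Stmts

set_option autoImplicit false

namespace Pool.Agent.Y876.ST.TGX

open Set Pool.Agent.Y876.ST
open H244SH (E3 IsCurve idist antipodes IsSteinhaus IsConvexSurface IsRevolution P Q PtLip TaskPL TaskQ TaskTri)
open Pm

variable [Pm]


theorem closedT : IsClosed T := by
  have h1 : IsClosed {p : E3 | (p 1) ^ 2 + (2 * (1 - ρ)) * Real.cosh (p 0) ≤ (1 + (1 - ρ) ^ 2)} :=
    isClosed_le (by fun_prop) (by fun_prop)
  have h2 : IsClosed {p : E3 | p 2 = (1 + η) - Real.cosh (p 0)} :=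
    isClosed_eq (by fun_prop) (by fun_prop)
  exact h1.inter h2

theorem closedB : IsClosed B := by
  have h1 : IsClosed {p : E3 | (p 1) ^ 2 + (2 * (1 - ρ)) * Real.cosh (p 0) ≤ (1 + (1 - ρ) ^ 2)} :=
    isClosed_le (by fun_prop) (by fun_prop)
  have h2 : IsClosed {p : E3 | p 2 = -((1 + η) - Real.cosh (p 0))} :=
    isClosed_eq (by fun_prop) (by fun_prop)
  exact h1.inter h2

theorem closedW : IsClosed W := by
  have h1 : IsClosed {p : E3 | (p 1) ^ 2 + (2 * (1 - ρ)) * Real.cosh (p 0) = (1 + (1 - ρ) ^ 2)} :=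
    isClosed_eq (by fun_prop) (by fun_prop)
  have h2 : IsClosed {p : E3 | |p 2| ≤ (1 + η) - Real.cosh (p 0)} :=
    isClosed_le (by fun_prop) (by fun_prop)
  exact h1.inter h2

theorem near {X : Set E3} (hX : IsClosed X) (p : E3) :
    ∃ δ > 0, ∀ p' : E3, dist p' p < δ → p' ∈ X → p ∈ X := by
  by_cases hp : p ∈ X
  · exact ⟨1, one_pos, fun _ _ _ => hp⟩
  · obtain ⟨δ, hδ, h⟩ := Metric.isOpen_iff.1 hX.isOpen_compl p hp
    exact ⟨δ, hδ, fun p' h1 h2 => absurd h2 (h (Metric.mem_ball.2 h1))⟩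

theorem normP_sq (p : E3) : ‖P p‖ ^ 2 = Real.sinh (p 0) ^ 2 + (p 1) ^ 2 := by
  rw [Complex.sq_norm, Complex.normSq_apply]
  simp only [P]
  ring

theorem normP_rim (p : E3) (h : (p 1) ^ 2 + (2 * (1 - ρ)) * Real.cosh (p 0) = (1 + (1 - ρ) ^ 2)) :
    ‖P p‖ = Real.cosh (p 0) - (1 - ρ) := by
  have hρ := ρ0
  have h1 := normP_sq p
  have h2 := Real.cosh_sq (p 0)
  have h3 : 1 ≤ Real.cosh (p 0) := Real.one_le_cosh _
  have h4 : ‖P p‖ ^ 2 = (Real.cosh (p 0) - (1 - ρ)) ^ 2 := by nlinarith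
  exact (pow_left_inj₀ (norm_nonneg _) (by linarith) two_ne_zero).1 h4

theorem contP : Continuous P := by
  have h : P = fun p : E3 => (Real.sinh (p 0) : ℂ) + (p 1 : ℂ) * Complex.I := by
    funext p
    apply Complex.ext
    · simp only [P, Complex.add_re, Complex.ofReal_re, Complex.mul_re, Complex.I_re,
        Complex.ofReal_im, Complex.I_im]
      ring
    · simp only [P, Complex.add_im, Complex.ofReal_re, Complex.mul_im, Complex.I_re,
        Complex.ofReal_im, Complex.I_im]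
      ring
  rw [h]
  fun_prop

theorem V_le (p : E3) (h : ‖P p‖ ≤ ρ) : V p = P p := by
  unfold V
  rw [if_pos h]

theorem normV_gt (p : E3) (h : ρ < ‖P p‖) : ‖V p‖ = ρ := by
  unfold V
  rw [if_neg (not_le.2 h), norm_mul, Complex.norm_real, Real.norm_eq_abs]
  have hρ := ρ0
  have h0 : 0 < ‖P p‖ := by linarith
  rw [abs_of_pos (by positivity)]
  field_simp

theorem normV_le (p : E3) : ‖V p‖ ≤ ρ := by
  by_cases h : ‖P p‖ ≤ ρ
  · rw [V_le p h]; exact h
  · exact (normV_gt p (not_le.1 h)).le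

/-- distance in the model -/
noncomputable def D (p' p : E3) : ℝ := Real.sqrt (‖V p' - V p‖ ^ 2 + (tt p' - tt p) ^ 2)

theorem g1_lip (u : ℂ) (hu : ‖u‖ = 1) (p' p : E3) : |g1 u p' - g1 u p| ≤ D p' p := by
  have h1 : g1 u p' - g1 u p = -((starRingEnd ℂ) u * (V p' - V p)).re := by
    unfold g1
    rw [mul_sub, Complex.sub_re]
    ring
  rw [h1, abs_neg]
  calc |((starRingEnd ℂ) u * (V p' - V p)).re| ≤ ‖(starRingEnd ℂ) u * (V p' - V p)‖ :=
        Complex.abs_re_le_norm _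
    _ = ‖V p' - V p‖ := by rw [norm_mul, Complex.norm_conj, hu, one_mul]
    _ ≤ D p' p := by
        unfold D
        apply Real.le_sqrt_of_sq_le
        nlinarith [sq_nonneg (tt p' - tt p)]

theorem mink (a b : ℂ) (s t : ℝ) : |Real.sqrt (‖a‖ ^ 2 + s ^ 2) - Real.sqrt (‖b‖ ^ 2 + t ^ 2)| ≤
    Real.sqrt (‖a - b‖ ^ 2 + (s - t) ^ 2) := by
  have h1 : ∀ (a : ℂ) (s : ℝ), Real.sqrt (‖a‖ ^ 2 + s ^ 2) = ‖(WithLp.toLp 2 (a, s) : WithLp 2 (ℂ × ℝ))‖ := by
    intro a s
    rw [WithLp.prod_norm_eq_of_L2]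
    simp
  have h2 : (WithLp.toLp 2 (a - b, s - t) : WithLp 2 (ℂ × ℝ)) =
      WithLp.toLp 2 (a, s) - WithLp.toLp 2 (b, t) := rfl
  rw [h1, h1, h1, h2]
  exact abs_norm_sub_norm_le _ _

theorem g2_lip (u : ℂ) (p' p : E3) : |g2 u p' - g2 u p| ≤ D p' p := by
  unfold g2 D
  refine (mink _ _ _ _).trans (le_of_eq ?_)
  congr 1
  rw [show V p' - ((ρ : ℝ) : ℂ) * u - (V p - ((ρ : ℝ) : ℂ) * u) = V p' - V p by ring]
  ring

theorem min_lip (u : ℂ) (hu : ‖u‖ = 1) (p' p : E3) :
    |min (g1 u p') (g2 u p') - min (g1 u p) (g2 u p)| ≤ D p' p :=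
  (abs_min_sub_min_le_max _ _ _ _).trans (max_le (g1_lip u hu p' p) (g2_lip u p' p))

/-- on the unit circle of top and bottom the second function is larger -/
theorem g1_le_g2 (u : ℂ) (hu : ‖u‖ = 1) (p : E3) (hp : p ∈ T ∨ p ∈ B) (hP : ‖P p‖ = ρ)
    (hs : 0 ≤ ((starRingEnd ℂ) u * P p).re) : g1 u p ≤ g2 u p := by
  have hV : V p = P p := V_le p hP.le
  have hrt : rt p = ρ := by
    unfold rt
    by_cases h : (p 1) ^ 2 + (2 * (1 - ρ)) * Real.cosh (p 0) = (1 + (1 - ρ) ^ 2)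
    · rw [if_pos h]
      have h1 := normP_rim p h
      rw [hP] at h1
      have h2 : Real.cosh (p 0) = 1 := by linarith
      rcases hp with hp | hp
      · have h3 : p 2 = (1 + η) - Real.cosh (p 0) := hp.2
        rw [h3, h2, add_sub_cancel_left, abs_of_pos η0]
        ring
      · have h3 : p 2 = -((1 + η) - Real.cosh (p 0)) := hp.2
        rw [h3, h2, abs_neg, add_sub_cancel_left, abs_of_pos η0]
        ring
    · rw [if_neg h]
      exact hP
  have htt : tt p = 0 := by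
    unfold tt
    rw [hrt]
    simp
  set s : ℝ := ((starRingEnd ℂ) u * P p).re with hsdef
  have hs1 : s ≤ ρ := by
    calc s ≤ |s| := le_abs_self _
      _ ≤ ‖(starRingEnd ℂ) u * P p‖ := Complex.abs_re_le_norm _
      _ = ρ := by rw [norm_mul, Complex.norm_conj, hu, one_mul, hP]
  have hnorm : ‖P p - ((ρ : ℝ) : ℂ) * u‖ ^ 2 = 2 * ρ ^ 2 - 2 * ρ * s := by
    have h1 : ‖P p‖ ^ 2 = ρ ^ 2 := by rw [hP]
    have h2 : ‖u‖ ^ 2 = 1 := by rw [hu]; norm_num
    rw [Complex.sq_norm, Complex.normSq_apply] at h1 h2 ⊢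
    rw [hsdef]
    simp only [Complex.sub_re, Complex.sub_im, Complex.mul_re, Complex.mul_im, Complex.conj_re,
      Complex.conj_im, Complex.ofReal_re, Complex.ofReal_im]
    linear_combination h1 + (ρ ^ 2) * h2
  unfold g1 g2
  rw [hV, htt, hnorm, ← hsdef]
  apply Real.le_sqrt_of_sq_le
  have h4 := η1
  nlinarith [mul_nonneg (sub_nonneg.2 hs1) (show 0 ≤ ρ + s - 2 * η by linarith)]

theorem taskG : TaskG := by
  intro hKE hQ u hu ε hε p hp
  obtain ⟨δ1, hδ1, h1⟩ := hQ ε hε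
  obtain ⟨δT, hδT, hT⟩ := near closedT p
  obtain ⟨δB, hδB, hB⟩ := near closedB p
  obtain ⟨δW, hδW, hW⟩ := near closedW p
  -- the common estimate
  have hD : ∀ p' : E3, p' ∈ S → dist p' p < δ1 → dist p' p < δT → dist p' p < δB →
      dist p' p < δW → D p' p ≤ (1 + ε) * dist p' p := by
    intro p' hp' d1 dT dB dW
    have hcom : (p' ∈ T ∧ p ∈ T) ∨ (p' ∈ B ∧ p ∈ B) ∨ (p' ∈ W ∧ p ∈ W) := by
      rcases hp' with (h | h) | h
      · exact Or.inl ⟨h, hT p' dT h⟩
      · exact Or.inr (Or.inl ⟨h, hB p' dB h⟩)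
      · exact Or.inr (Or.inr ⟨h, hW p' dW h⟩)
    exact (Real.sqrt_le_sqrt (hKE p' p hcom)).trans (h1 p p' d1)
  rcases lt_trichotomy ‖P p‖ (ρ) with hlt | heq | hgt
  · -- inside
    obtain ⟨δ2, hδ2, h2⟩ := Metric.isOpen_iff.1
      (isOpen_lt (contP.norm) continuous_const : IsOpen {p : E3 | ‖P p‖ < ρ}) p hlt
    refine ⟨min δ1 (min δT (min δB (min δW δ2))), by positivity, fun p' hp' hd => ?_⟩
    simp only [lt_min_iff] at hd
    obtain ⟨d1, dT, dB, dW, d2⟩ := hd
    have hlt' : ‖P p'‖ < ρ := h2 (Metric.mem_ball.2 d2)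
    have e : G u p = g1 u p := by
      unfold G
      rw [V_le p hlt.le, if_pos hlt]
    have e' : G u p' = g1 u p' := by
      unfold G
      rw [V_le p' hlt'.le, if_pos hlt']
    rw [e, e']
    exact (g1_lip u hu p' p).trans (hD p' hp'.1 d1 dT dB dW)
  · -- on the circle
    by_cases hTB : p ∈ T ∨ p ∈ B
    · have hle := g1_le_g2 u hu p hTB heq hp.2
      refine ⟨min δ1 (min δT (min δB δW)), by positivity, fun p' hp' hd => ?_⟩
      simp only [lt_min_iff] at hd
      obtain ⟨d1, dT, dB, dW⟩ := hd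
      have e : G u p = min (g1 u p) (g2 u p) := by
        unfold G
        rw [V_le p heq.le, if_neg (by rw [heq]; exact lt_irrefl _)]
      have e1 : G u p = g1 u p := by rw [e, min_eq_left hle]
      by_cases hV : ‖V p'‖ < ρ
      · have e' : G u p' = g1 u p' := by
          unfold G
          rw [if_pos hV]
        rw [e1, e']
        exact (g1_lip u hu p' p).trans (hD p' hp'.1 d1 dT dB dW)
      · have e' : G u p' = min (g1 u p') (g2 u p') := by
          unfold G
          rw [if_neg hV]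
        rw [e, e']
        exact (min_lip u hu p' p).trans (hD p' hp'.1 d1 dT dB dW)
    · push Not at hTB
      refine ⟨min δ1 (min δT (min δB δW)), by positivity, fun p' hp' hd => ?_⟩
      simp only [lt_min_iff] at hd
      obtain ⟨d1, dT, dB, dW⟩ := hd
      have hW' : p' ∈ W := by
        rcases hp'.1 with (h | h) | h
        · exact absurd (hT p' dT h) hTB.1
        · exact absurd (hB p' dB h) hTB.2
        · exact h
      have hP' : ρ ≤ ‖P p'‖ := by
        rw [normP_rim p' hW'.1]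
        have := Real.one_le_cosh (p' 0)
        linarith
      have hV' : ¬ ‖V p'‖ < ρ := by
        rcases hP'.eq_or_lt with h | h
        · rw [V_le p' h.symm.le, ← h]
          exact lt_irrefl _
        · rw [normV_gt p' h]
          exact lt_irrefl _
      have e : G u p = min (g1 u p) (g2 u p) := by
        unfold G
        rw [V_le p heq.le, if_neg (by rw [heq]; exact lt_irrefl _)]
      have e' : G u p' = min (g1 u p') (g2 u p') := by
        unfold G
        rw [if_neg hV']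
      rw [e, e']
      exact (min_lip u hu p' p).trans (hD p' hp'.1 d1 dT dB dW)
  · -- outside
    obtain ⟨δ2, hδ2, h2⟩ := Metric.isOpen_iff.1
      (isOpen_lt continuous_const (contP.norm) : IsOpen {p : E3 | ρ < ‖P p‖}) p hgt
    refine ⟨min δ1 (min δT (min δB (min δW δ2))), by positivity, fun p' hp' hd => ?_⟩
    simp only [lt_min_iff] at hd
    obtain ⟨d1, dT, dB, dW, d2⟩ := hd
    have hgt' : ρ < ‖P p'‖ := h2 (Metric.mem_ball.2 d2)
    have e : G u p = min (g1 u p) (g2 u p) := by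
      unfold G
      rw [normV_gt p hgt, if_neg (lt_irrefl _)]
    have e' : G u p' = min (g1 u p') (g2 u p') := by
      unfold G
      rw [normV_gt p' hgt', if_neg (lt_irrefl _)]
    rw [e, e']
    exact (min_lip u hu p' p).trans (hD p' hp'.1 d1 dT dB dW)

end Pool.Agent.Y876.ST.TGX
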