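import Pool.Agent.Y876.ST.Stmts

set_option autoImplicit false

namespace Pool.Agent.Y876.ST

open Set
open H244SH (E3 IsCurve idist antipodes IsSteinhaus IsConvexSurface IsRevolution P Q PtLip TaskPL TaskQ TaskTri)
open Pm

variable [Pm]

namespace Up

lemma normsq_P (p : E3) : ‖P p‖ ^ 2 = Real.sinh (p 0) ^ 2 + (p 1) ^ 2 := by
  rw [Complex.sq_norm, Complex.normSq_apply]
  simp only [P]
  ring

lemma norm_W {p : E3} (hp : p ∈ W) : ‖P p‖ = Real.cosh (p 0) - (1 - ρ) := by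
  have hρ := ρ0
  obtain ⟨h1, h2⟩ := hp
  have h3 := Real.cosh_sq (p 0)
  have h4 : 1 ≤ Real.cosh (p 0) := Real.one_le_cosh _
  have h5 := normsq_P p
  have h6 : ‖P p‖ ^ 2 = (Real.cosh (p 0) - (1 - ρ)) ^ 2 := by nlinarith
  exact (pow_left_inj₀ (norm_nonneg _) (by linarith) two_ne_zero).1 h6

lemma norm_W_ge {p : E3} (hp : p ∈ W) : ρ ≤ ‖P p‖ := by
  have h4 : 1 ≤ Real.cosh (p 0) := Real.one_le_cosh _
  rw [norm_W hp]
  linarith

lemma sq_W {p : E3} (hp : p ∈ W) : (‖P p‖ + (1 - ρ)) ^ 2 = 1 + (P p).re ^ 2 := by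
  rw [norm_W hp]
  have h3 := Real.cosh_sq (p 0)
  have : (P p).re = Real.sinh (p 0) := rfl
  rw [this]
  nlinarith

lemma abs_W {p : E3} (hp : p ∈ W) : |p 2| ≤ (ρ + η) - ‖P p‖ := by
  rw [norm_W hp]
  have := hp.2
  linarith

lemma sq_TR {w : ℂ} (hw : w ∈ TR) : (‖w‖ + (1 - ρ)) ^ 2 ≤ 1 + w.re ^ 2 := by
  have h : ‖w‖ + (1 - ρ) ≤ Real.sqrt (1 + w.re ^ 2) := hw
  have h0' : 0 < 1 - ρ := by linarith [ρ1]
  have h0 : 0 ≤ ‖w‖ + (1 - ρ) := by positivity
  have h1 := (Real.le_sqrt' (by positivity)).1 h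
  exact h1

lemma TR_lt {w : ℂ} (hw : w ∈ TR) : ‖w‖ < ρ + η := by
  have h := sq_TR hw
  have h2 : w.re ^ 2 ≤ ‖w‖ ^ 2 := by
    rw [← sq_abs]
    exact pow_le_pow_left₀ (abs_nonneg _) (Complex.abs_re_le_norm w) 2
  have h0 := norm_nonneg w
  have h3 : 0 < 1 - ρ := by linarith [ρ1]
  have h4 := Pm.h1
  have h5 : 2 * (1 - ρ) * ‖w‖ < 2 * (1 - ρ) * (ρ + η) := by nlinarith
  exact lt_of_mul_lt_mul_left h5 (by linarith)

lemma P_Psi (w : ℂ) : P (Psi w) = w := by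
  apply Complex.ext
  · simp [P, Psi, Real.sinh_arsinh]
  · simp [P, Psi]

lemma P_Psi' (w : ℂ) : P (Psi' w) = w := by
  apply Complex.ext
  · simp [P, Psi', Real.sinh_arsinh]
  · simp [P, Psi']

lemma P_neg (p : E3) : P (-p) = - P p := by
  apply Complex.ext
  · simp [P]
  · simp [P]

lemma ext3 {p q : E3} (h0 : p 0 = q 0) (h1 : p 1 = q 1) (h2 : p 2 = q 2) : p = q := by
  ext i
  fin_cases i
  · exact h0
  · exact h1
  · exact h2

lemma neg_W {p : E3} (h : p ∈ W) : -p ∈ W := ⟨by simpa using h.1, by simpa using h.2⟩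
lemma neg_T {p : E3} (h : p ∈ T) : -p ∈ B := ⟨by simpa using h.1, by simp [h.2]⟩
lemma neg_B {p : E3} (h : p ∈ B) : -p ∈ T := ⟨by simpa using h.1, by simp [h.2]⟩

/-- `p` lies on the meridian in direction `u` at distance `s` from the pole -/
def Par (p : E3) (u : ℂ) (s : ℝ) : Prop :=
  ‖u‖ = 1 ∧ 0 ≤ s ∧ s ≤ (2 * (ρ + η)) ∧
  ((p ∈ T ∧ P p = (s : ℂ) * u) ∨ (p ∈ W ∧ s = (ρ + η) - p 2 ∧ P p = ((‖P p‖ : ℝ) : ℂ) * u) ∨
   (p ∈ B ∧ P p = (((2 * (ρ + η)) - s : ℝ) : ℂ) * u))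

lemma exists_par (hR : TaskRim) {p : E3} (hp : p ∈ S) : ∃ u s, Par p u s := by
  have hρ := ρ0
  have hη := η0
  obtain ⟨r1, r2, -⟩ := hR
  obtain ⟨u, hu, hPu⟩ : ∃ u : ℂ, ‖u‖ = 1 ∧ P p = ((‖P p‖ : ℝ) : ℂ) * u := by
    by_cases h : P p = 0
    · exact ⟨1, by simp, by rw [h]; simp⟩
    · have hn : (‖P p‖ : ℝ) ≠ 0 := norm_ne_zero_iff.2 h
      refine ⟨P p / ((‖P p‖ : ℝ) : ℂ), ?_, ?_⟩
      · rw [norm_div, Complex.norm_real, norm_norm, div_self hn]
      · rw [mul_div_cancel₀]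
        exact_mod_cast hn
  have hn0 := norm_nonneg (P p)
  rcases hp with (hT | hB) | hW
  · have := TR_lt (r1 p hT).1
    exact ⟨u, ‖P p‖, hu, hn0, by linarith, Or.inl ⟨hT, hPu⟩⟩
  · have := TR_lt (r2 p hB).1
    refine ⟨u, (2 * (ρ + η)) - ‖P p‖, hu, by linarith, by linarith, Or.inr (Or.inr ⟨hB, ?_⟩)⟩
    rw [sub_sub_cancel]
    exact hPu
  · have h1 := abs_le.1 (abs_W hW)
    have h2 := norm_W_ge hW
    exact ⟨u, (ρ + η) - p 2, hu, by linarith [h1.2], by linarith [h1.1],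
      Or.inr (Or.inl ⟨hW, rfl, hPu⟩)⟩

lemma Par.mem {p : E3} {u : ℂ} {s : ℝ} (h : Par p u s) : p ∈ S := by
  obtain ⟨-, -, -, (h | h | h)⟩ := h
  · exact Or.inl (Or.inl h.1)
  · exact Or.inr h.1
  · exact Or.inl (Or.inr h.1)

lemma Par.neg {p : E3} {u : ℂ} {s : ℝ} (h : Par p u s) : Par (-p) (-u) ((2 * (ρ + η)) - s) := by
  obtain ⟨h1, h2, h3, h⟩ := h
  refine ⟨by rwa [norm_neg], by linarith, by linarith, ?_⟩
  rcases h with ⟨a, b⟩ | ⟨a, b, c⟩ | ⟨a, b⟩
  · right; right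
    refine ⟨neg_T a, ?_⟩
    rw [P_neg, b, sub_sub_cancel]
    ring
  · right; left
    refine ⟨neg_W a, ?_, ?_⟩
    · rw [b]
      simp only [PiLp.neg_apply]
      ring
    · rw [P_neg, norm_neg, mul_neg, ← c]
  · left
    refine ⟨neg_B a, ?_⟩
    rw [P_neg, b]
    ring

lemma norm_mul_unit {u : ℂ} (hu : ‖u‖ = 1) {r : ℝ} (hr : 0 ≤ r) : ‖(r : ℂ) * u‖ = r := by
  rw [norm_mul, hu, mul_one, Complex.norm_real, Real.norm_of_nonneg hr]

/-- comparison of radii in a fixed direction -/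
lemma radius_le {u : ℂ} (hu : ‖u‖ = 1) {r c : ℝ} (_ : 0 ≤ r) (hc : 0 ≤ c)
    (h1 : (r + (1 - ρ)) ^ 2 ≤ 1 + (r * u.re) ^ 2) (h2 : (c + (1 - ρ)) ^ 2 = 1 + (c * u.re) ^ 2) :
    r ≤ c := by
  have ha : u.re ^ 2 ≤ 1 := by
    have : |u.re| ≤ 1 := hu ▸ Complex.abs_re_le_norm u
    rw [← sq_abs]
    exact pow_le_one₀ (abs_nonneg _) this
  by_contra hlt
  push Not at hlt
  have h0 : 0 < 1 - ρ := by linarith [ρ1]
  have h3 : (r - c) * (r + c + (2 * (1 - ρ))) ≤ u.re ^ 2 * ((r - c) * (r + c)) := by nlinarith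
  have h4 : u.re ^ 2 * ((r - c) * (r + c)) ≤ 1 * ((r - c) * (r + c)) :=
    mul_le_mul_of_nonneg_right ha (mul_nonneg (by linarith) (by linarith))
  nlinarith [mul_pos (sub_pos.2 hlt) h0]

lemma re_mul (r : ℝ) (u : ℂ) : ((r : ℂ) * u).re = r * u.re := by simp

/-- a point of `T` and a point of `W` with the same parameters are equal -/
lemma inj_TW (hR : TaskRim) {p q : E3} {u : ℂ} {s : ℝ} (hu : ‖u‖ = 1) (hs : 0 ≤ s)
    (hp : p ∈ T) (hPp : P p = (s : ℂ) * u)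
    (hq : q ∈ W) (hs' : s = (ρ + η) - q 2) (hPq : P q = ((‖P q‖ : ℝ) : ℂ) * u) : p = q := by
  obtain ⟨r1, r2, r3, r4, r5, r6⟩ := hR
  set c := ‖P q‖ with hc
  have hc0 : 0 ≤ c := norm_nonneg _
  have h1 := sq_TR (r1 p hp).1
  rw [hPp, norm_mul_unit hu hs, re_mul] at h1
  have h2 := sq_W hq
  rw [← hc, hPq, re_mul] at h2
  have h3 : s ≤ c := radius_le hu hs hc0 h1 h2
  have h4 := (abs_le.1 (abs_W hq)).2
  rw [← hc] at h4
  have h5 : s = c := by linarith
  have h6 := (r1 p hp).2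
  have h7 : P p = P q := by rw [hPp, hPq, h5]
  rw [h7] at h6
  obtain ⟨-, -, -, a0, a1, -, -, a2, -, -⟩ := r5 q hq
  rw [h6] at a0 a1 a2
  refine ext3 a0 a1 ?_
  rw [a2, ← hc]
  linarith

lemma inj_WW {p q : E3} {u : ℂ} {s : ℝ} (hu : ‖u‖ = 1)
    (hp : p ∈ W) (hs : s = (ρ + η) - p 2) (hPp : P p = ((‖P p‖ : ℝ) : ℂ) * u)
    (hq : q ∈ W) (hs' : s = (ρ + η) - q 2) (hPq : P q = ((‖P q‖ : ℝ) : ℂ) * u) : p = q := by
  have h1 := sq_W hp
  have h2 := sq_W hq
  set c := ‖P q‖ with hc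
  set r := ‖P p‖ with hr
  have hc0 : 0 ≤ c := norm_nonneg _
  have hr0 : 0 ≤ r := norm_nonneg _
  rw [hPp, re_mul] at h1
  rw [hPq, re_mul] at h2
  have h3 : r = c := le_antisymm (radius_le hu hr0 hc0 h1.le h2) (radius_le hu hc0 hr0 h2.le h1)
  have h4 : P p = P q := by rw [hPp, hPq, h3]
  refine ext3 ?_ ?_ (by linarith)
  · have h5 : (P p).re = (P q).re := by rw [h4]
    exact Real.sinh_injective h5
  · have h5 : (P p).im = (P q).im := by rw [h4]
    exact h5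

lemma inj (hR : TaskRim) {p q : E3} {u : ℂ} {s : ℝ} (h : Par p u s) (h' : Par q u s) : p = q := by
  have hρ := ρ0
  have hη := η0
  have hR' := hR
  obtain ⟨r1, r2, r3, r4, r5, r6⟩ := hR
  have hn := h.neg
  have hn' := h'.neg
  obtain ⟨hu, hs, hs2, h⟩ := h
  obtain ⟨-, -, -, h'⟩ := h'
  have hTB : ∀ p q : E3, p ∈ T → P p = (s : ℂ) * u → q ∈ B → P q = (((2 * (ρ + η)) - s : ℝ) : ℂ) * u →
      False := by
    intro p q hp hPp hq hPq
    have a := TR_lt (r1 p hp).1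
    have b := TR_lt (r2 q hq).1
    rw [hPp, norm_mul_unit hu hs] at a
    rw [hPq, norm_mul_unit hu (by linarith)] at b
    linarith
  have hBW : ∀ p q : E3, p ∈ B → P p = (((2 * (ρ + η)) - s : ℝ) : ℂ) * u → q ∈ W → s = (ρ + η) - q 2 →
      P q = ((‖P q‖ : ℝ) : ℂ) * u → p = q := by
    intro p q hp hPp hq hs' hPq
    have : -p = -q := by
      refine inj_TW (u := -u) (s := (2 * (ρ + η)) - s) hR' (by rwa [norm_neg]) (by linarith) (neg_B hp) ?_
        (neg_W hq) ?_ ?_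
      · rw [P_neg, hPp]; ring
      · rw [hs']; simp only [PiLp.neg_apply]; ring
      · rw [P_neg, norm_neg, mul_neg, ← hPq]
    exact neg_injective this
  rcases h with ⟨a, b⟩ | ⟨a, b, c⟩ | ⟨a, b⟩ <;> rcases h' with ⟨a', b'⟩ | ⟨a', b', c'⟩ | ⟨a', b'⟩
  · rw [← (r1 p a).2, ← (r1 q a').2, b, b']
  · exact inj_TW hR' hu hs a b a' b' c'
  · exact (hTB p q a b a' b').elim
  · exact (inj_TW hR' hu hs a' b' a b c).symm
  · exact inj_WW hu a b c a' b' c'
  · exact (hBW q p a' b' a b c).symm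
  · exact (hTB q p a' b' a b).elim
  · exact hBW p q a b a' b' c'
  · rw [← (r2 p a).2, ← (r2 q a').2, b, b']

/-- at the pole the direction is arbitrary -/
lemma par_zero (hR : TaskRim) {p : E3} {u v : ℂ} (h : Par p u 0) (hv : ‖v‖ = 1) : Par p v 0 := by
  have hρ := ρ0
  have hη := η0
  obtain ⟨r1, r2, r3, r4, r5, r6⟩ := hR
  obtain ⟨hu, hs, hs2, (⟨a, b⟩ | ⟨a, b, c⟩ | ⟨a, b⟩)⟩ := h
  · refine ⟨hv, hs, hs2, Or.inl ⟨a, ?_⟩⟩
    rw [b]; simp
  · exfalso
    have h1 := (abs_le.1 (abs_W a)).2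
    have h2 := norm_W_ge a
    linarith
  · exfalso
    have h1 := TR_lt (r2 p a).1
    rw [b, norm_mul_unit hu (by linarith)] at h1
    linarith

lemma seg_TR (r3 : ∀ w ∈ TR, ∀ s ∈ Icc (0 : ℝ) 1, (s : ℂ) * w ∈ TR) {u : ℂ} {a b : ℝ}
    (hb : (b : ℂ) * u ∈ TR) (ha : 0 ≤ a) (hab : a ≤ b) :
    segment ℝ ((b : ℂ) * u) ((a : ℂ) * u) ⊆ TR := by
  rintro z ⟨α, β, hα, hβ, hsum, rfl⟩
  rcases eq_or_lt_of_le (ha.trans hab) with h0 | h0
  · have ha0 : a = 0 := le_antisymm (h0 ▸ hab) ha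
    subst ha0
    rw [← h0] at hb ⊢
    simpa using hb
  · have hb0 : (b : ℂ) ≠ 0 := by exact_mod_cast h0.ne'
    have key : α • ((b : ℂ) * u) + β • ((a : ℂ) * u) = (((α * b + β * a) / b : ℝ) : ℂ) * ((b : ℂ) * u) := by
      rw [Complex.real_smul, Complex.real_smul]
      push_cast
      field_simp
    rw [key]
    refine r3 _ hb _ ⟨by positivity, ?_⟩
    rw [div_le_one h0]
    nlinarith

lemma trans' {A : Set E3} (hTri : TaskTri) {p q r : E3} {a b : ℝ} (ha : 0 ≤ a) (hb : 0 ≤ b)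
    (h1 : idist A p q ≤ ENNReal.ofReal a) (h2 : idist A q r ≤ ENNReal.ofReal b) :
    idist A p r ≤ ENNReal.ofReal (a + b) := by
  rw [ENNReal.ofReal_add ha hb]
  exact (hTri.1 A p q r).trans (add_le_add h1 h2)

/-- the distance to the top disc along the meridian -/
lemma up (hTri : TaskTri)
    (hSeg : ∀ w w' : ℂ, segment ℝ w w' ⊆ TR →
      idist S (Psi w) (Psi w') ≤ ENNReal.ofReal ‖w - w'‖ ∧
      idist S (Psi' w) (Psi' w') ≤ ENNReal.ofReal ‖w - w'‖)
    (hV : ∀ p ∈ W, ∀ p' ∈ W, p 0 = p' 0 → p 1 = p' 1 → idist S p p' ≤ ENNReal.ofReal |p 2 - p' 2|)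
    (hR : TaskRim) {p : E3} {u : ℂ} {s e : ℝ} (h : Par p u s) (he : 0 ≤ e) (hes : e ≤ s)
    (he1 : e ≤ ρ) : idist S p (Psi ((e : ℂ) * u)) ≤ ENNReal.ofReal (s - e) := by
  have hρ := ρ0
  have hη := η0
  obtain ⟨r1, r2, r3, r4, r5, r6⟩ := hR
  obtain ⟨hu, hs, hs2, h⟩ := h
  have hdist : ∀ a b : ℝ, b ≤ a → ‖(a : ℂ) * u - (b : ℂ) * u‖ = a - b := by
    intro a b hab
    rw [← sub_mul, ← Complex.ofReal_sub, norm_mul_unit hu (by linarith)]
  rcases h with ⟨a, b⟩ | ⟨a, b, c⟩ | ⟨a, b⟩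
  · obtain ⟨h1, h2⟩ := r1 p a
    rw [b] at h1 h2
    have h3 := (hSeg ((s : ℂ) * u) ((e : ℂ) * u) (seg_TR r3 h1 he hes)).1
    rw [h2, hdist s e hes] at h3
    exact h3
  · obtain ⟨h1, h2, h3, h4, h5, h6, h7, h8, h9, h10⟩ := r5 p a
    have hc := norm_W_ge a
    set c0 := ‖P p‖ with hc0
    have hec : e ≤ c0 := by linarith
    have k1 : idist S p (Psi (P p)) ≤ ENNReal.ofReal (s - c0) := by
      have := hV p a (Psi (P p)) h2 h4.symm h5.symm
      rw [h8] at this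
      refine this.trans (ENNReal.ofReal_le_ofReal ?_)
      have h11 := (abs_le.1 h10).2
      rw [abs_sub_comm, abs_of_nonneg (by linarith)]
      linarith
    have k2 : idist S (Psi (P p)) (Psi ((e : ℂ) * u)) ≤ ENNReal.ofReal (c0 - e) := by
      rw [c] at h1
      have h3 := (hSeg ((c0 : ℂ) * u) ((e : ℂ) * u) (seg_TR r3 h1 he hec)).1
      rw [hdist c0 e hec, ← c] at h3
      exact h3
    have h11 := (abs_le.1 h10).2
    have k3 := trans' hTri (by linarith) (by linarith) k1 k2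
    rwa [show s - c0 + (c0 - e) = s - e by ring] at k3
  · -- the bottom
    obtain ⟨h1, h2⟩ := r2 p a
    set r := (2 * (ρ + η)) - s with hr
    have hr0 : 0 ≤ r := by linarith
    obtain ⟨c, hrc, hcT, hcW, hcW'⟩ : ∃ c : ℝ, r ≤ c ∧ (c : ℂ) * u ∈ TR ∧
        Psi ((c : ℂ) * u) ∈ W ∧ Psi' ((c : ℂ) * u) ∈ W := by
      rcases eq_or_lt_of_le hr0 with h0 | h0
      · have hne : ((ρ : ℝ) : ℂ) * u ≠ 0 := by
          rw [← norm_ne_zero_iff, norm_mul_unit hu hρ.le]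
          exact hρ.ne'
        obtain ⟨k, k1, k2, k3, k4⟩ := r6 (((ρ : ℝ) : ℂ) * u)
          (r4 _ (by rw [norm_mul_unit hu hρ.le])) hne
        refine ⟨k * (ρ), by rw [← h0]; positivity, ?_, ?_, ?_⟩
        · rw [Complex.ofReal_mul, mul_assoc]; exact k2
        · rw [Complex.ofReal_mul, mul_assoc]; exact k3
        · rw [Complex.ofReal_mul, mul_assoc]; exact k4
      · have hne : (r : ℂ) * u ≠ 0 := by
          rw [← norm_ne_zero_iff, norm_mul_unit hu hr0]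
          exact h0.ne'
        obtain ⟨k, k1, k2, k3, k4⟩ := r6 ((r : ℂ) * u) (b ▸ h1) hne
        refine ⟨k * r, by nlinarith, ?_, ?_, ?_⟩
        · rw [Complex.ofReal_mul, mul_assoc]; exact k2
        · rw [Complex.ofReal_mul, mul_assoc]; exact k3
        · rw [Complex.ofReal_mul, mul_assoc]; exact k4
    have hc0 : 0 ≤ c := hr0.trans hrc
    have hPc : P (Psi ((c : ℂ) * u)) = (c : ℂ) * u := P_Psi _
    have hnc : ‖P (Psi ((c : ℂ) * u))‖ = c := by rw [hPc, norm_mul_unit hu hc0]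
    obtain ⟨g1, g2, g3, g4, g5, g6, g7, g8, g9, g10⟩ := r5 _ hcW
    have hge := norm_W_ge hcW
    rw [hnc] at hge g8 g9 g10
    rw [hPc] at g6 g7 g8 g9
    have hec : e ≤ c := by linarith
    -- p to the lower rim
    have k1 : idist S p (Psi' ((c : ℂ) * u)) ≤ ENNReal.ofReal (c - r) := by
      have h3 := (hSeg ((r : ℂ) * u) ((c : ℂ) * u) (by
        rw [segment_symm]; exact seg_TR r3 hcT hr0 hrc)).2
      rw [← b, h2, b, ← norm_neg, neg_sub, hdist c r hrc] at h3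
      exact h3
    have k2 : idist S (Psi' ((c : ℂ) * u)) (Psi ((c : ℂ) * u)) ≤
        ENNReal.ofReal (2 * ((ρ + η) - c)) := by
      have := hV _ hcW' _ hcW g6 g7
      rw [g8, g9] at this
      refine this.trans (ENNReal.ofReal_le_ofReal ?_)
      have h11 := (abs_nonneg _).trans g10
      rw [abs_sub_comm, abs_of_nonneg (by linarith)]
      linarith
    have k3 : idist S (Psi ((c : ℂ) * u)) (Psi ((e : ℂ) * u)) ≤ ENNReal.ofReal (c - e) := by
      have h3 := (hSeg ((c : ℂ) * u) ((e : ℂ) * u) (seg_TR r3 hcT he hec)).1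
      rw [hdist c e hec] at h3
      exact h3
    have h11 := (abs_nonneg _).trans g10
    have k4 := trans' hTri (by linarith) (by linarith)
      (trans' hTri (by linarith) (by linarith) k1 k2) k3
    rwa [show c - r + 2 * ((ρ + η) - c) + (c - e) = s - e by rw [hr]; ring] at k4

end Up

open Up in
theorem taskUp : TaskUp := by
  intro hTri hSeg hV hR p hp q hq hne
  have hρ := ρ0
  have hη := η0
  have hR' := hR
  obtain ⟨r1, r2, r3, r4, r5, r6⟩ := hR'
  obtain ⟨u, s, h⟩ := exists_par hR hp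
  obtain ⟨v, t, h'⟩ := exists_par hR hq
  -- via the pole
  have via : ∀ (p q : E3) (u v : ℂ) (s t : ℝ), Par p u s → Par q v t →
      idist S p q ≤ ENNReal.ofReal (s + t) := by
    intro p q u v s t h h'
    have a := up hTri hSeg hV hR h le_rfl h.2.1 hρ.le
    have b := up hTri hSeg hV hR h' le_rfl h'.2.1 hρ.le
    have a' : idist S p (Psi 0) ≤ ENNReal.ofReal s := by simpa using a
    have b' : idist S (Psi 0) q ≤ ENNReal.ofReal t := (hTri.2.1 S _ _).trans (by simpa using b)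
    exact trans' hTri h.2.1 h'.2.1 a' b'
  have hs := h.2.1
  have ht := h'.2.1
  have hs2 := h.2.2.1
  have ht2 := h'.2.2.1
  rcases lt_trichotomy (s + t) ((2 * (ρ + η))) with hlt | heq | hgt
  · refine (via p q u v s t h h').trans_lt ?_
    exact (ENNReal.ofReal_lt_ofReal_iff (by linarith)).2 hlt
  · have ht' : t = (2 * (ρ + η)) - s := by linarith
    have key : ∀ w : ℂ, Par p w s → Par q (-w) t → False := by
      intro w k k'
      have := k.neg
      rw [← ht'] at this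
      exact hne (inj hR k' this)
    rcases eq_or_lt_of_le hs with hs0 | hs0
    · exfalso
      refine key (-v) ?_ (by rwa [neg_neg])
      rw [← hs0] at h ⊢
      exact par_zero hR h (by rw [norm_neg]; exact h'.1)
    rcases eq_or_lt_of_le ht with ht0 | ht0
    · exfalso
      refine key u h ?_
      rw [← ht0] at h' ⊢
      exact par_zero hR h' (by rw [norm_neg]; exact h.1)
    by_cases huv : v = -u
    · exfalso
      exact key u h (huv ▸ h')
    · -- cut the corner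
      obtain ⟨e, he0, hes, het, he1⟩ : ∃ e : ℝ, 0 < e ∧ e ≤ s ∧ e ≤ t ∧ e ≤ ρ :=
        ⟨min s (min t (ρ)), lt_min hs0 (lt_min ht0 hρ), min_le_left _ _,
          (min_le_right _ _).trans (min_le_left _ _), (min_le_right _ _).trans (min_le_right _ _)⟩
      have k1 := up hTri hSeg hV hR h he0.le hes he1
      have k2 := up hTri hSeg hV hR h' he0.le het he1
      have k2' : idist S (Psi ((e : ℂ) * v)) q ≤ ENNReal.ofReal (t - e) :=
        (hTri.2.1 S _ _).trans k2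
      have hseg : segment ℝ ((e : ℂ) * u) ((e : ℂ) * v) ⊆ TR := by
        intro z hz
        apply r4
        have hc : Convex ℝ (Metric.closedBall (0 : ℂ) (ρ)) := convex_closedBall _ _
        have h1 : (e : ℂ) * u ∈ Metric.closedBall (0 : ℂ) (ρ) := by
          rw [mem_closedBall_zero_iff, norm_mul_unit h.1 he0.le]; exact he1
        have h2 : (e : ℂ) * v ∈ Metric.closedBall (0 : ℂ) (ρ) := by
          rw [mem_closedBall_zero_iff, norm_mul_unit h'.1 he0.le]; exact he1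
        have := hc.segment_subset h1 h2 hz
        rwa [mem_closedBall_zero_iff] at this
      have k4 := (hSeg _ _ hseg).1
      have hlt2 : ‖u - v‖ < 2 := by
        -- parallelogram identity
        have hpar : ‖u + v‖ ^ 2 + ‖u - v‖ ^ 2 = 4 := by
          have := parallelogram_law_with_norm ℝ u v
          rw [h.1, h'.1] at this
          nlinarith
        have hpos : 0 < ‖u + v‖ := by
          rw [norm_pos_iff]
          intro h0
          exact huv (eq_neg_of_add_eq_zero_right h0)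
        nlinarith [norm_nonneg (u - v)]
      have hnorm : ‖(e : ℂ) * u - (e : ℂ) * v‖ = e * ‖u - v‖ := by
        rw [← mul_sub, norm_mul, Complex.norm_real, Real.norm_of_nonneg he0.le]
      rw [hnorm] at k4
      have k5 := trans' hTri (add_nonneg (by linarith) (by positivity)) (by linarith)
        (trans' hTri (by linarith) (by positivity) k1 k4) k2'
      refine k5.trans_lt ((ENNReal.ofReal_lt_ofReal_iff (by linarith)).2 ?_)
      nlinarith
  · have a := via (-p) (-q) (-u) (-v) ((2 * (ρ + η)) - s) ((2 * (ρ + η)) - t) h.neg h'.neg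
    have b := hTri.2.2.1 S neg_mem_S (-p) (-q)
    rw [neg_neg, neg_neg] at b
    refine (b.trans a).trans_lt ((ENNReal.ofReal_lt_ofReal_iff (by linarith)).2 ?_)
    linarith

open Up in
/-- the distance to the opposite point is at most the length of a meridian -/
theorem upLe (hTri : TaskTri)
    (hSeg : ∀ w w' : ℂ, segment ℝ w w' ⊆ TR →
      idist S (Psi w) (Psi w') ≤ ENNReal.ofReal ‖w - w'‖ ∧
      idist S (Psi' w) (Psi' w') ≤ ENNReal.ofReal ‖w - w'‖)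
    (hV : ∀ p ∈ W, ∀ p' ∈ W, p 0 = p' 0 → p 1 = p' 1 → idist S p p' ≤ ENNReal.ofReal |p 2 - p' 2|)
    (hR : TaskRim) {p : E3} (hp : p ∈ S) : idist S p (-p) ≤ ENNReal.ofReal (2 * (ρ + η)) := by
  have hρ := ρ0
  obtain ⟨u, s, h⟩ := exists_par hR hp
  have h' := h.neg
  have a := up hTri hSeg hV hR h le_rfl h.2.1 hρ.le
  have b := up hTri hSeg hV hR h' le_rfl h'.2.1 hρ.le
  have a' : idist S p (Psi 0) ≤ ENNReal.ofReal s := by simpa using a
  have b' : idist S (Psi 0) (-p) ≤ ENNReal.ofReal (2 * (ρ + η) - s) :=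
    (hTri.2.1 S _ _).trans (by simpa using b)
  have c := trans' hTri h.2.1 h'.2.1 a' b'
  rwa [add_sub_cancel] at c

end Pool.Agent.Y876.ST
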