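import Pool.Agent.Y876.ST.Stmts

/-! Project H244-STEIN, task Vert -/

set_option autoImplicit false
set_option maxHeartbeats 4000000

namespace Pool.Agent.Y876.ST

open Set
open H244SH (E3 IsCurve idist antipodes IsSteinhaus IsConvexSurface IsRevolution P Q PtLip TaskPL TaskQ TaskTri)
open Pm

variable [Pm]

namespace VertX

theorem aux (h5 : ∀ (A : Set E3) (p q : E3) (γ : ℝ → E3) (L : ℝ), 0 ≤ L →
    (∀ s ∈ Icc (0 : ℝ) L, ∀ t ∈ Icc (0 : ℝ) L, dist (γ s) (γ t) ≤ |s - t|) →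
    (∀ t ∈ Icc (0 : ℝ) L, γ t ∈ A) → γ 0 = p → γ L = q → idist A p q ≤ ENNReal.ofReal L)
    (p p' : E3) (hp : p ∈ W) (hp' : p' ∈ W) (h0 : p 0 = p' 0) (h1 : p 1 = p' 1) (σ L : ℝ)
    (hσ : σ = 1 ∨ σ = -1) (hL : 0 ≤ L) (h2 : p' 2 = p 2 + σ * L) :
    idist S p p' ≤ ENNReal.ofReal L := by
  have hσa : |σ| = 1 := by
    rcases hσ with h | h <;> rw [h] <;> norm_num
  refine h5 S p p' (fun t => p + (σ * t) • EuclideanSpace.single (2 : Fin 3) (1 : ℝ)) L hL ?_ ?_ ?_ ?_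
  · intro s _ t _
    rw [dist_add_left, dist_eq_norm, ← sub_smul, norm_smul, Real.norm_eq_abs, ← mul_sub, abs_mul,
      hσa, one_mul]
    simp
  · intro t ht
    right
    have c0 : (p + (σ * t) • EuclideanSpace.single (2 : Fin 3) (1 : ℝ)) 0 = p 0 := by simp
    have c1 : (p + (σ * t) • EuclideanSpace.single (2 : Fin 3) (1 : ℝ)) 1 = p 1 := by simp
    have c2 : (p + (σ * t) • EuclideanSpace.single (2 : Fin 3) (1 : ℝ)) 2 = p 2 + σ * t := by simp
    refine ⟨?_, ?_⟩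
    · rw [c0, c1]
      exact hp.1
    · rw [c0, c2]
      have e1 := abs_le.1 hp.2
      have e2 := abs_le.1 hp'.2
      rw [← h0, h2] at e2
      rw [abs_le]
      rcases hσ with h | h
      · rw [h] at e2 ⊢
        constructor
        · linarith [ht.1, e1.1]
        · linarith [ht.2, e2.2]
      · rw [h] at e2 ⊢
        constructor
        · linarith [ht.2, e2.1]
        · linarith [ht.1, e1.2]
  · simp
  · ext i
    fin_cases i
    · simp [h0]
    · simp [h1]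
    · simp [h2]

end VertX

theorem taskVert : TaskVert := by
  rintro ⟨_, _, _, _, h5⟩ p hp p' hp' h0 h1
  rcases le_total (p 2) (p' 2) with h | h
  · rw [abs_sub_comm, abs_of_nonneg (sub_nonneg.2 h)]
    exact VertX.aux h5 p p' hp hp' h0 h1 1 (p' 2 - p 2) (Or.inl rfl) (sub_nonneg.2 h) (by ring)
  · rw [abs_of_nonneg (sub_nonneg.2 h)]
    exact VertX.aux h5 p p' hp hp' h0 h1 (-1) (p 2 - p' 2) (Or.inr rfl) (sub_nonneg.2 h) (by ring)

end Pool.Agent.Y876.ST
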