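import Pool.Agent.Y876.ST.KE
import Pool.Agent.Y876.ST.TG
import Pool.Agent.Y876.ST.Front
import Pool.Agent.Y876.ST.Mid
import Pool.Agent.Y876.ST.Lower
import Pool.Agent.Y876.ST.Vert
import Pool.Agent.Y876.ST.Seg
import Pool.Agent.Y876.ST.Rim
import Pool.Agent.Y876.ST.Up
import Pool.Agent.Y876.ST.Conv
import Pool.Agent.Y876.ST.Rev

/-! Assembly: every surface of the family is a Steinhaus surface that is not of revolution. -/

set_option autoImplicit false

namespace Pool.Agent.Y876.ST

open Set
open H244SH (E3 IsCurve idist antipodes IsSteinhaus IsConvexSurface IsRevolution P Q PtLip TaskPL TaskQ TaskTri)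
open Pm

variable [Pm]

theorem final : IsSteinhaus S ∧ (∀ p ∈ S, antipodes S p = {-p}) ∧
    (∀ p ∈ S, idist S p (-p) = ENNReal.ofReal (2 * (ρ + η))) ∧ ¬ IsRevolution S := by
  have hlow := taskLower H244SH.taskTri (taskMid (taskFront H244SH.taskPL
    (TGX.taskG taskKE H244SH.taskQ)))
  have hup := taskUp H244SH.taskTri (taskSeg H244SH.taskTri) (taskVert H244SH.taskTri) taskRim
  have hle : ∀ p ∈ S, idist S p (-p) ≤ ENNReal.ofReal (2 * (ρ + η)) := fun p hp =>
    upLe H244SH.taskTri (taskSeg H244SH.taskTri) (taskVert H244SH.taskTri) taskRim hp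
  have hant : ∀ p ∈ S, antipodes S p = {-p} := by
    intro p hp
    ext q
    constructor
    · rintro ⟨hq, hmax⟩
      by_contra hne
      have h1 := hup p hp q hq hne
      have h2 := hmax (-p) (neg_mem_S p hp)
      exact absurd (lt_of_le_of_lt ((hlow p hp).trans h2) h1) (lt_irrefl _)
    · intro hq
      rw [mem_singleton_iff] at hq
      subst hq
      refine ⟨neg_mem_S p hp, fun s hs => ?_⟩
      by_cases hsp : s = -p
      · rw [hsp]
      · exact (hup p hp s hs hsp).le.trans (hlow p hp)
  exact ⟨⟨fun p => -p, hant, fun p _ => neg_neg p⟩, hant,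
    fun p hp => le_antisymm (hle p hp) (hlow p hp), taskRev⟩

end Pool.Agent.Y876.ST
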