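import Pool.Agent.Y876.ST.Rev

/-! Different members of the family are not similar. -/

set_option autoImplicit false

namespace Pool.Agent.Y876.ST.Sim

open Set Pool.Agent.Y876.ST
open H244SH (E3)
open Pm

section one

variable [Pm]

lemma half_sq (x : ℝ) : 1 + x ^ 2 / 2 ≤ Real.cosh x := by
  have h1 : Real.cosh x = 1 + 2 * Real.sinh (x / 2) ^ 2 := by
    have h2 := Real.cosh_two_mul (x / 2)
    have h3 := Real.cosh_sq (x / 2)
    rw [show 2 * (x / 2) = x by ring] at h2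
    linarith
  have h4 : (x / 2) ^ 2 ≤ Real.sinh (x / 2) ^ 2 := by
    rcases le_total 0 (x / 2) with h | h
    · have := Real.self_le_sinh_iff.mpr h
      nlinarith
    · have := Real.sinh_le_self_iff.mpr h
      nlinarith
  nlinarith

lemma first {p : E3} (hp : p ∈ S) :
    (p 1) ^ 2 + (2 * (1 - ρ)) * Real.cosh (p 0) ≤ 1 + (1 - ρ) ^ 2 := by
  rcases hp with (⟨h1, -⟩ | ⟨h1, -⟩) | ⟨h1, -⟩
  · exact h1
  · exact h1
  · exact h1.le

lemma xsq {p : E3} (hp : p ∈ S) : (p 0) ^ 2 ≤ 1 := by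
  have h1 := cosh_le (first hp)
  have h2 := half_sq (p 0)
  have h3 := η1
  have h4 := ρ1
  linarith

/-- in the wall -/
lemma wall {p : E3} (hp : p ∈ S)
    (hw : (p 1) ^ 2 + (2 * (1 - ρ)) * Real.cosh (p 0) = 1 + (1 - ρ) ^ 2) :
    ρ ^ 2 + (1 - (1 - ρ) * (1 + η)) * (p 0) ^ 2 ≤ (p 0) ^ 2 + (p 1) ^ 2 := by
  have h1 := cosh_le (first hp)
  have h2 := Rev.cosh_up (p 0) (xsq hp)
  have h3 := ρ1
  have e1 : 2 * (Real.cosh (p 0) - 1) ≤ (1 + η) * (p 0) ^ 2 := by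
    have e2 : Real.cosh (p 0) * (p 0) ^ 2 ≤ (1 + η) * (p 0) ^ 2 :=
      mul_le_mul_of_nonneg_right h1 (sq_nonneg _)
    linarith
  have e3 : (1 - ρ) * (2 * (Real.cosh (p 0) - 1)) ≤ (1 - ρ) * ((1 + η) * (p 0) ^ 2) :=
    mul_le_mul_of_nonneg_left e1 (by linarith)
  nlinarith

lemma kpos : 0 < 1 - (1 - ρ) * (1 + η) := by
  have h1 := ρ0
  have h2 := η0
  have h3 := η1
  nlinarith [mul_pos h1 h2]

lemma norm_ge {p : E3} (hp : p ∈ S) : η ^ 2 ≤ (p 0) ^ 2 + (p 1) ^ 2 + (p 2) ^ 2 := by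
  have hρ := ρ0
  have hη := η0
  have hηρ := η1
  have hρ1 := ρ1
  have hx := xsq hp
  have h1 := Rev.cosh_up' (p 0) hx
  have h2 := Real.one_le_cosh (p 0)
  have key : (p 2) ^ 2 = ((1 + η) - Real.cosh (p 0)) ^ 2 →
      η ^ 2 ≤ (p 0) ^ 2 + (p 1) ^ 2 + (p 2) ^ 2 := by
    intro hz
    have e1 : η * (Real.cosh (p 0) - 1) ≤ η * (p 0) ^ 2 :=
      mul_le_mul_of_nonneg_left (by linarith) hη.le
    have e2 : 0 ≤ (1 - 2 * η) * (p 0) ^ 2 := mul_nonneg (by linarith) (sq_nonneg _)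
    nlinarith [sq_nonneg (Real.cosh (p 0) - 1), sq_nonneg (p 1)]
  have hp' := hp
  rcases hp with (⟨-, hz⟩ | ⟨-, hz⟩) | ⟨hw, -⟩
  · exact key (by rw [hz])
  · exact key (by rw [hz, neg_sq])
  · have h3 := wall hp' hw
    have h4 := mul_nonneg kpos.le (sq_nonneg (p 0))
    have h5 : η ^ 2 ≤ ρ ^ 2 := by nlinarith
    nlinarith [sq_nonneg (p 2)]

lemma eq_wall {p : E3} (hp : p ∈ S) (h2 : p 2 = 0) :
    (p 1) ^ 2 + (2 * (1 - ρ)) * Real.cosh (p 0) = 1 + (1 - ρ) ^ 2 := by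
  have hh := Pm.h1
  have h3 := cosh_le' (first hp)
  rcases hp with (⟨-, hz⟩ | ⟨-, hz⟩) | ⟨hw, -⟩
  · exfalso
    have h4 : Real.cosh (p 0) - 1 = η := by linarith
    rw [h4] at h3
    linarith
  · exfalso
    have h4 : Real.cosh (p 0) - 1 = η := by linarith
    rw [h4] at h3
    linarith
  · exact hw

lemma equator {p : E3} (hp : p ∈ S) (h2 : p 2 = 0) :
    ρ ^ 2 + (1 - (1 - ρ) * (1 + η)) * (p 0) ^ 2 ≤ (p 0) ^ 2 + (p 1) ^ 2 :=
  wall hp (eq_wall hp h2)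

lemma coshX : (2 * (1 - ρ)) * Real.cosh (-Real.log (1 - ρ)) = 1 + (1 - ρ) ^ 2 := by
  have h : 0 < 1 - ρ := by linarith [ρ1]
  rw [Real.cosh_eq, neg_neg, Real.exp_neg, Real.exp_log h]
  field_simp

lemma memX : (!₂[-Real.log (1 - ρ), 0, 0] : E3) ∈ S := by
  rw [Rev.mem_S]
  right
  constructor
  · rw [coshX]; ring
  · rw [abs_zero, sub_nonneg]
    exact cosh_le (y := 0) (by rw [coshX]; simp)

lemma xabs {p : E3} (hp : p ∈ S) (h1 : p 1 = 0) (h2 : p 2 = 0) :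
    |p 0| = -Real.log (1 - ρ) := by
  have h := eq_wall hp h2
  rw [h1] at h
  have hρ1 := ρ1
  have hρ := ρ0
  have h3 : Real.cosh (p 0) = Real.cosh (-Real.log (1 - ρ)) := by
    have h4 := coshX
    have h5 : (2 * (1 - ρ)) * Real.cosh (p 0) = (2 * (1 - ρ)) * Real.cosh (-Real.log (1 - ρ)) := by
      rw [h4]; linarith
    exact mul_left_cancel₀ (by linarith) h5
  have h6 : |p 0| = |(-Real.log (1 - ρ))| :=
    le_antisymm (Real.cosh_le_cosh.1 h3.le) (Real.cosh_le_cosh.1 h3.ge)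
  rw [h6, abs_of_nonneg]
  have := Real.log_nonpos (by linarith : (0 : ℝ) ≤ 1 - ρ) (by linarith)
  linarith

end one

lemma shift_zero {A : Set E3} {M : ℝ} (hM : ∀ x ∈ A, ‖x‖ ≤ M) {w x0 : E3}
    (hstep : ∀ x ∈ A, x - w ∈ A) (h0 : x0 ∈ A) : w = 0 := by
  have hiter : ∀ n : ℕ, x0 - (n : ℝ) • w ∈ A := by
    intro n
    induction n with
    | zero => simpa using h0
    | succ n ih =>
      have h1 := hstep _ ih
      have e : x0 - (n : ℝ) • w - w = x0 - ((n + 1 : ℕ) : ℝ) • w := by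
        push_cast
        module
      rwa [e] at h1
  by_contra hne
  have hpos : 0 < ‖w‖ := norm_pos_iff.2 hne
  obtain ⟨n, hn⟩ := exists_nat_gt (2 * M / ‖w‖)
  rw [div_lt_iff₀ hpos] at hn
  have h1 := hM _ (hiter n)
  have h2 := hM _ h0
  have h3 : ‖(n : ℝ) • w‖ ≤ 2 * M := by
    have e : (n : ℝ) • w = x0 - (x0 - (n : ℝ) • w) := by abel
    rw [e]
    exact (norm_sub_le _ _).trans (by linarith)
  rw [norm_smul, Real.norm_eq_abs, abs_of_nonneg (by positivity)] at h3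
  linarith

/-- The parameters are determined by the similarity class of the surface. -/
theorem rigid (i j : Pm) (c : ℝ) (hc : 0 < c) (R : E3 ≃ₗᵢ[ℝ] E3) (b : E3)
    (h : (fun x => c • R x + b) '' (@S i) = @S j) : i.ρ = j.ρ ∧ i.η = j.η := by
  have hb : b = 0 := by
    have h1 : ∀ x ∈ @S j, x - (2 : ℝ) • b ∈ @S j := by
      intro y hy
      rw [← h] at hy
      obtain ⟨x, hx, rfl⟩ := hy
      have h2 : c • R (-x) + b ∈ @S j := by
        rw [← h]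
        exact ⟨-x, @neg_mem_S i x hx, rfl⟩
      have h3 := @neg_mem_S j _ h2
      have e : -(c • R (-x) + b) = c • R x + b - (2 : ℝ) • b := by
        rw [map_neg]
        module
      rw [e] at h3
      exact h3
    have h2 := shift_zero (@Rev.bdd j) h1 (@Rev.memN j)
    exact (smul_eq_zero.1 h2).resolve_left two_ne_zero
  subst hb
  have fw : ∀ x ∈ @S i, c • R x ∈ @S j := by
    intro x hx
    rw [← h]
    exact ⟨x, hx, by simp⟩
  have bw : ∀ y ∈ @S j, ∃ x ∈ @S i, y = c • R x := by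
    intro y hy
    rw [← h] at hy
    obtain ⟨x, hx, rfl⟩ := hy
    exact ⟨x, hx, by simp⟩
  have hin : ∀ x y : E3, inner ℝ (c • R x) (c • R y) = c ^ 2 * inner ℝ x y := by
    intro x y
    rw [inner_smul_left, inner_smul_right, LinearIsometryEquiv.inner_map_map]
    simp
    ring
  have hnn : ∀ x : E3, (c • R x) 0 ^ 2 + (c • R x) 1 ^ 2 + (c • R x) 2 ^ 2 =
      c ^ 2 * (x 0 ^ 2 + x 1 ^ 2 + x 2 ^ 2) := by
    intro x
    rw [← Rev.norm_c, ← Rev.norm_c, norm_smul, LinearIsometryEquiv.norm_map, mul_pow,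
      Real.norm_eq_abs, sq_abs]
  have hi := @η0 i
  have hj := @η0 j
  have hri := @ρ0 i
  have hrj := @ρ0 j
  -- the poles
  obtain ⟨N, hN⟩ : ∃ N : E3, N = !₂[0, 0, i.η] := ⟨_, rfl⟩
  have hN0 : N 0 = 0 := by rw [hN]; rfl
  have hN1 : N 1 = 0 := by rw [hN]; rfl
  have hN2 : N 2 = i.η := by rw [hN]; rfl
  have hNS : N ∈ @S i := by rw [hN]; exact @Rev.memN i
  obtain ⟨Y, hY⟩ : ∃ Y : E3, Y = c • R N := ⟨_, rfl⟩
  have hYS : Y ∈ @S j := hY ▸ fw N hNS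
  have hYn : Y 0 ^ 2 + Y 1 ^ 2 + Y 2 ^ 2 = c ^ 2 * i.η ^ 2 := by
    rw [hY, hnn, hN0, hN1, hN2]; ring
  have heta : j.η = c * i.η := by
    have h1 := @norm_ge j Y hYS
    rw [hYn] at h1
    obtain ⟨x, hx, hxe⟩ := bw _ (@Rev.memN j)
    have h2 := @norm_ge i x hx
    have h3 := hnn x
    rw [← hxe] at h3
    have h4 : (0 : ℝ) ^ 2 + 0 ^ 2 + j.η ^ 2 = c ^ 2 * (x 0 ^ 2 + x 1 ^ 2 + x 2 ^ 2) := h3
    have h5 : c ^ 2 * i.η ^ 2 ≤ c ^ 2 * (x 0 ^ 2 + x 1 ^ 2 + x 2 ^ 2) :=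
      mul_le_mul_of_nonneg_left h2 (by positivity)
    have h6 : j.η ^ 2 = (c * i.η) ^ 2 := by rw [mul_pow]; linarith
    exact (pow_left_inj₀ hj.le (by positivity) two_ne_zero).1 h6
  have hYs := @Rev.small j (Y 0) (Y 1) (Y 2) (by rw [Rev.eta]; exact hYS)
    (by rw [hYn, heta]; ring)
  obtain ⟨hY0, hY1⟩ := hYs
  have hY2 : Y 2 ≠ 0 := by
    intro h2
    rw [hY0, hY1, h2] at hYn
    have : 0 < c ^ 2 * i.η ^ 2 := by positivity
    linarith
  have hflat : ∀ x : E3, (c • R x) 2 = 0 ↔ x 2 = 0 := by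
    intro x
    have h1 := hin x N
    rw [← hY, Rev.inner_c, Rev.inner_c, hY0, hY1, hN0, hN1, hN2] at h1
    have h1' : (c • R x) 2 * Y 2 = c ^ 2 * (x 2 * i.η) := by linarith
    constructor
    · intro h2
      rw [h2, zero_mul] at h1'
      have h3 := (mul_eq_zero.1 h1'.symm).resolve_left (by positivity)
      exact (mul_eq_zero.1 h3).resolve_right hi.ne'
    · intro h2
      rw [h2, zero_mul, mul_zero] at h1'
      exact (mul_eq_zero.1 h1').resolve_right hY2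
  -- the nearest points of the equator
  obtain ⟨M, hM⟩ : ∃ M : E3, M = !₂[0, i.ρ, 0] := ⟨_, rfl⟩
  have hM0 : M 0 = 0 := by rw [hM]; rfl
  have hM1 : M 1 = i.ρ := by rw [hM]; rfl
  have hM2 : M 2 = 0 := by rw [hM]; rfl
  have hMS : M ∈ @S i := by rw [hM]; exact @Rev.memQ i
  obtain ⟨Z, hZ⟩ : ∃ Z : E3, Z = c • R M := ⟨_, rfl⟩
  have hZS : Z ∈ @S j := hZ ▸ fw M hMS
  have hZ2 : Z 2 = 0 := by rw [hZ]; exact (hflat M).2 hM2
  have hZn : Z 0 ^ 2 + Z 1 ^ 2 = c ^ 2 * i.ρ ^ 2 := by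
    have h1 := hnn M
    rw [← hZ, hZ2, hM0, hM1, hM2] at h1
    linarith
  have hZe := @equator j Z hZS hZ2
  have hkj := @kpos j
  have hki := @kpos i
  have hrho' : c ^ 2 * i.ρ ^ 2 ≤ j.ρ ^ 2 := by
    obtain ⟨x, hx, hxe⟩ := bw _ (@Rev.memQ j)
    have h3 := hnn x
    have hx2 : x 2 = 0 := by
      rw [← hflat x, ← hxe]
      rfl
    rw [← hxe, hx2] at h3
    have h4 : (0 : ℝ) ^ 2 + j.ρ ^ 2 + 0 ^ 2 = c ^ 2 * (x 0 ^ 2 + x 1 ^ 2 + 0 ^ 2) := h3
    have h5 := @equator i x hx hx2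
    have h6 := mul_nonneg hki.le (sq_nonneg (x 0))
    have h7 : c ^ 2 * i.ρ ^ 2 ≤ c ^ 2 * (x 0 ^ 2 + x 1 ^ 2) :=
      mul_le_mul_of_nonneg_left (by linarith) (by positivity)
    linarith
  have hZ0 : Z 0 = 0 := by
    rw [hZn] at hZe
    have h6 := mul_nonneg hkj.le (sq_nonneg (Z 0))
    have h7 : (1 - (1 - j.ρ) * (1 + j.η)) * (Z 0) ^ 2 = 0 := by linarith
    have h8 := (mul_eq_zero.1 h7).resolve_left hkj.ne'
    exact pow_eq_zero_iff (two_ne_zero) |>.1 h8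
  have hrho : j.ρ = c * i.ρ := by
    rw [hZn, hZ0] at hZe
    have h6 : j.ρ ^ 2 = (c * i.ρ) ^ 2 := by rw [mul_pow]; nlinarith
    exact (pow_left_inj₀ hrj.le (by positivity) two_ne_zero).1 h6
  have hZ1 : Z 1 ≠ 0 := by
    intro h2
    rw [hZ0, h2] at hZn
    have : 0 < c ^ 2 * i.ρ ^ 2 := by positivity
    linarith
  -- the farthest points of the equator
  obtain ⟨L, hL⟩ : ∃ L : E3, L = !₂[-Real.log (1 - i.ρ), 0, 0] := ⟨_, rfl⟩
  have hL0 : L 0 = -Real.log (1 - i.ρ) := by rw [hL]; rfl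
  have hL1 : L 1 = 0 := by rw [hL]; rfl
  have hL2 : L 2 = 0 := by rw [hL]; rfl
  have hLS : L ∈ @S i := by rw [hL]; exact @memX i
  obtain ⟨X, hX⟩ : ∃ X : E3, X = c • R L := ⟨_, rfl⟩
  have hXS : X ∈ @S j := hX ▸ fw L hLS
  have hX2 : X 2 = 0 := by rw [hX]; exact (hflat L).2 hL2
  have hX1 : X 1 = 0 := by
    have h1 := hin L M
    rw [← hX, ← hZ, Rev.inner_c, Rev.inner_c, hZ0, hZ2, hM0, hM2, hL1] at h1
    have h2 : X 1 * Z 1 = 0 := by linarith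
    exact (mul_eq_zero.1 h2).resolve_right hZ1
  have hXa := @xabs j X hXS hX1 hX2
  have hlog : Real.log (1 - j.ρ) = c * Real.log (1 - i.ρ) := by
    have h1 := hnn L
    rw [← hX, hX1, hX2, hL0, hL1, hL2] at h1
    have hneg : Real.log (1 - i.ρ) ≤ 0 :=
      Real.log_nonpos (by linarith [@ρ1 i]) (by linarith)
    have hneg' : Real.log (1 - j.ρ) ≤ 0 :=
      Real.log_nonpos (by linarith [@ρ1 j]) (by linarith)
    have h2 : (-Real.log (1 - j.ρ)) ^ 2 = (c * -Real.log (1 - i.ρ)) ^ 2 := by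
      rw [← hXa, sq_abs, mul_pow]; linarith
    have h3 := (pow_left_inj₀ (by linarith) (mul_nonneg hc.le (by linarith)) two_ne_zero).1 h2
    linarith
  have hi1 : 0 < 1 - i.ρ := by linarith [@ρ1 i]
  have hj1 : 0 < 1 - j.ρ := by linarith [@ρ1 j]
  have hpow : (1 + -i.ρ) ^ c = 1 + c * -i.ρ := by
    have h1 : (1 - i.ρ) ^ c = 1 - j.ρ := by
      rw [Real.rpow_def_of_pos hi1, mul_comm, ← hlog, Real.exp_log hj1]
    rw [← sub_eq_add_neg, h1, hrho]
    ring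
  have hc1 : c = 1 := by
    rcases lt_trichotomy c 1 with h1 | h1 | h1
    · have := rpow_one_add_lt_one_add_mul_self (s := -i.ρ) (by linarith) (by linarith) hc h1
      rw [hpow] at this
      exact absurd this (lt_irrefl _)
    · exact h1
    · have := one_add_mul_self_lt_rpow_one_add (s := -i.ρ) (by linarith) (by linarith) h1
      rw [hpow] at this
      exact absurd this (lt_irrefl _)
  rw [hc1, one_mul] at hrho heta
  exact ⟨hrho.symm, heta.symm⟩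

/-- a map which multiplies all distances by `c` is a similarity -/
theorem sim_form (f : E3 → E3) (c : ℝ) (hc : 0 < c) (hf : ∀ x y, dist (f x) (f y) = c * dist x y) :
    ∃ (R : E3 ≃ₗᵢ[ℝ] E3) (b : E3), ∀ x, f x = c • R x + b := by
  have hg : Isometry (fun x => c⁻¹ • f x) := by
    refine Isometry.of_dist_eq fun x y => ?_
    rw [dist_smul₀, hf, Real.norm_of_nonneg (inv_nonneg.2 hc.le), ← mul_assoc,
      inv_mul_cancel₀ hc.ne', one_mul]
  obtain ⟨A, hA⟩ : ∃ A : E3 →ᵃⁱ[ℝ] E3, ∀ x, A x = c⁻¹ • f x :=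
    ⟨hg.affineIsometryOfStrictConvexSpace, fun x => rfl⟩
  refine ⟨A.linearIsometry.toLinearIsometryEquiv rfl, f 0, fun x => ?_⟩
  have h1 := A.map_vadd (0 : E3) x
  rw [vadd_eq_add, vadd_eq_add, add_zero, hA, hA] at h1
  rw [LinearIsometry.coe_toLinearIsometryEquiv]
  have h2 : f x = c • (c⁻¹ • f x) := by rw [smul_smul, mul_inv_cancel₀ hc.ne', one_smul]
  rw [h2, h1, smul_add, smul_smul, mul_inv_cancel₀ hc.ne', one_smul]

theorem rigid' (i j : Pm) (c : ℝ) (hc : 0 < c) (f : E3 → E3)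
    (hf : ∀ x y, dist (f x) (f y) = c * dist x y) (h : f '' (@S i) = @S j) :
    i.ρ = j.ρ ∧ i.η = j.η := by
  obtain ⟨R, b, hR⟩ := sim_form f c hc hf
  have : f = fun x => c • R x + b := funext hR
  rw [this] at h
  exact rigid i j c hc R b h

end Pool.Agent.Y876.ST.Sim
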