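import Pool.Agent.Y876.ST.Stmts

/-! Task KE of project H244-STEIN (helper750). -/

set_option autoImplicit false

namespace Pool.Agent.Y876.ST

open Set
open H244SH (E3 IsCurve idist antipodes IsSteinhaus IsConvexSurface IsRevolution P Q PtLip TaskPL TaskQ TaskTri)
open Pm

variable [Pm]

namespace KE

theorem nsq (w : ℂ) : ‖w‖ ^ 2 = w.re ^ 2 + w.im ^ 2 := by
  rw [Complex.sq_norm, Complex.normSq_apply]
  ring

theorem cs (w w' : ℂ) : w.re * w'.re + w.im * w'.im ≤ ‖w‖ * ‖w'‖ := by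
  have h := Complex.re_le_norm (w * (starRingEnd ℂ) w')
  rw [norm_mul, Complex.norm_conj] at h
  have e : (w * (starRingEnd ℂ) w').re = w.re * w'.re + w.im * w'.im := by
    simp [Complex.mul_re]
  rw [e] at h
  exact h

/-- projection to the disc of radius `1/10` -/
noncomputable def Vf (w : ℂ) : ℂ := by
  classical exact if ‖w‖ ≤ ρ then w else ((ρ / ‖w‖ : ℝ) : ℂ) * w

theorem nsub (s s' : ℝ) (w w' : ℂ) : ‖(s : ℂ) * w - (s' : ℂ) * w'‖ ^ 2 =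
    s ^ 2 * ‖w‖ ^ 2 + s' ^ 2 * ‖w'‖ ^ 2 - 2 * s * s' * (w.re * w'.re + w.im * w'.im) := by
  rw [nsq, nsq, nsq]
  simp only [Complex.sub_re, Complex.sub_im, Complex.mul_re, Complex.mul_im, Complex.ofReal_re,
    Complex.ofReal_im]
  ring

/-- the projection together with the distance does not increase distances -/
theorem one_out {w w' : ℂ} (h : ρ < ‖w‖) (h' : ‖w'‖ ≤ ρ) :
    ‖((ρ / ‖w‖ : ℝ) : ℂ) * w - w'‖ ^ 2 + (‖w‖ - ρ) ^ 2 ≤ ‖w - w'‖ ^ 2 := by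
  have e1 := nsub (ρ / ‖w‖) 1 w w'
  have e2 := nsub 1 1 w w'
  rw [Complex.ofReal_one, one_mul] at e1 e2
  rw [one_mul] at e2
  rw [e1, e2]
  have hρ := ρ0
  have hpos : 0 < ‖w‖ := by linarith
  set r := ‖w‖ with hr
  set d := w.re * w'.re + w.im * w'.im with hd
  have hcs : d ≤ r * ‖w'‖ := cs w w'
  have hd2 : d ≤ r * (ρ) := hcs.trans (mul_le_mul_of_nonneg_left h' hpos.le)
  have e3 : (ρ / r) ^ 2 * r ^ 2 = ρ ^ 2 := by
    field_simp
  have e4 : 2 * (ρ / r) * 1 * d = 2 * d * (ρ / r) := by ring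
  rw [e3, e4]
  have hs : ρ / r ≤ 1 := by
    rw [div_le_one hpos]; exact h.le
  have e5 : (1 - ρ / r) * (r * ρ - d) = r * ρ - d - ρ ^ 2 + d * (ρ / r) := by
    field_simp
    ring
  have e6 := mul_nonneg (sub_nonneg.2 hs) (sub_nonneg.2 hd2)
  rw [e5] at e6
  nlinarith

theorem two_out {w w' : ℂ} (h : ρ < ‖w‖) (h' : ρ < ‖w'‖) :
    ‖((ρ / ‖w‖ : ℝ) : ℂ) * w - ((ρ / ‖w'‖ : ℝ) : ℂ) * w'‖ ^ 2 +
      ((‖w‖ - ρ) - (‖w'‖ - ρ)) ^ 2 ≤ ‖w - w'‖ ^ 2 := by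
  have e1 := nsub (ρ / ‖w‖) (ρ / ‖w'‖) w w'
  have e2 := nsub 1 1 w w'
  rw [Complex.ofReal_one, one_mul, one_mul] at e2
  rw [e1, e2]
  have hρ := ρ0
  have hpos : 0 < ‖w‖ := by linarith
  have hpos' : 0 < ‖w'‖ := by linarith
  set r := ‖w‖ with hr
  set r' := ‖w'‖ with hr'
  set d := w.re * w'.re + w.im * w'.im with hd
  have hcs : d ≤ r * r' := cs w w'
  have e3 : (ρ / r) ^ 2 * r ^ 2 = ρ ^ 2 := by
    field_simp
  have e3' : (ρ / r') ^ 2 * r' ^ 2 = ρ ^ 2 := by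
    field_simp
  have e4 : 2 * (ρ / r) * (ρ / r') * d = (2 * ρ ^ 2) * (d / (r * r')) := by
    field_simp
  rw [e3, e3', e4]
  have hrr : ρ ^ 2 ≤ r * r' := by nlinarith
  have hrr0 : 0 < r * r' := mul_pos hpos hpos'
  have hq : d / (r * r') ≤ 1 := by
    rw [div_le_one hrr0]; exact hcs
  have hq2 : d / (r * r') * (r * r') = d := by field_simp
  nlinarith [mul_nonneg (sub_nonneg.2 hq) (sub_nonneg.2 hrr)]

theorem keyT (w w' : ℂ) : ‖Vf w - Vf w'‖ ^ 2 +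
    (max (‖w‖ - ρ) 0 - max (‖w'‖ - ρ) 0) ^ 2 ≤ ‖w - w'‖ ^ 2 := by
  unfold Vf
  by_cases h : ‖w‖ ≤ ρ
  · by_cases h' : ‖w'‖ ≤ ρ
    · rw [if_pos h, if_pos h', max_eq_right (by linarith), max_eq_right (by linarith)]
      simp
    · rw [if_pos h, if_neg h', max_eq_right (by linarith), max_eq_left (by linarith)]
      have := one_out (lt_of_not_ge h') h
      rw [norm_sub_rev w w', norm_sub_rev w _]
      linarith [this, sq_nonneg (‖w'‖ - ρ)]
  · by_cases h' : ‖w'‖ ≤ ρ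
    · rw [if_neg h, if_pos h', max_eq_left (by linarith), max_eq_right (by linarith)]
      have := one_out (lt_of_not_ge h) h'
      linarith
    · rw [if_neg h, if_neg h', max_eq_left (by linarith), max_eq_left (by linarith)]
      exact two_out (lt_of_not_ge h) (lt_of_not_ge h')

theorem V_eq (p : E3) : V p = Vf (P p) := by
  unfold V Vf
  rfl

/-- the hyperbolic identity -/
theorem hyp (a b : ℝ) : 4 * Real.sinh ((a - b) / 2) ^ 2 =
    (Real.sinh a - Real.sinh b) ^ 2 - (Real.cosh a - Real.cosh b) ^ 2 := by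
  have h1 : Real.cosh (a - b) = Real.cosh ((a - b) / 2) ^ 2 + Real.sinh ((a - b) / 2) ^ 2 := by
    rw [← Real.cosh_two_mul]
    congr 1
    ring
  have h2 := Real.cosh_sq ((a - b) / 2)
  have h3 := Real.cosh_sub a b
  have h4 := Real.cosh_sq a
  have h5 := Real.cosh_sq b
  nlinarith

theorem P_sq (p : E3) : ‖P p‖ ^ 2 = Real.sinh (p 0) ^ 2 + (p 1) ^ 2 := by
  rw [nsq]
  rfl

theorem PP (p p' : E3) : ‖P p - P p'‖ ^ 2 =
    (Real.sinh (p 0) - Real.sinh (p' 0)) ^ 2 + (p 1 - p' 1) ^ 2 := by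
  rw [nsq]
  rfl

/-- on the rim `|P| = cosh x - 9/10` -/
theorem rim {p : E3} (h : (p 1) ^ 2 + (2 * (1 - ρ)) * Real.cosh (p 0) = (1 + (1 - ρ) ^ 2)) :
    ‖P p‖ = Real.cosh (p 0) - (1 - ρ) := by
  have hρ := ρ0
  have h1 := P_sq p
  have h2 := Real.cosh_sq (p 0)
  have h3 := Real.one_le_cosh (p 0)
  have h4 : ‖P p‖ ^ 2 = (Real.cosh (p 0) - (1 - ρ)) ^ 2 := by
    rw [h1]
    nlinarith
  exact (sq_eq_sq₀ (norm_nonneg _) (by linarith)).1 h4

theorem rt_TB {p : E3} (h : (p 1) ^ 2 + (2 * (1 - ρ)) * Real.cosh (p 0) ≤ (1 + (1 - ρ) ^ 2))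
    (hz : |p 2| = (1 + η) - Real.cosh (p 0)) : rt p = ‖P p‖ := by
  unfold rt
  split_ifs with hr
  · rw [rim hr, hz]
    ring
  · rfl

theorem absz {p : E3} (h : (p 1) ^ 2 + (2 * (1 - ρ)) * Real.cosh (p 0) ≤ (1 + (1 - ρ) ^ 2)) :
    0 ≤ (1 + η) - Real.cosh (p 0) := sub_nonneg.2 (cosh_le h)

theorem keyTB {p p' : E3} (hr : rt p = ‖P p‖) (hr' : rt p' = ‖P p'‖)
    (hz : (p 2 - p' 2) ^ 2 = (Real.cosh (p 0) - Real.cosh (p' 0)) ^ 2) :
    ‖V p - V p'‖ ^ 2 + (tt p - tt p') ^ 2 ≤ Q p p' := by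
  have h := keyT (P p) (P p')
  unfold tt Q
  rw [hr, hr', V_eq, V_eq, hz, hyp]
  rw [PP] at h
  linarith

theorem V_W {p : E3} (h : ρ ≤ ‖P p‖) : V p = ((ρ / ‖P p‖ : ℝ) : ℂ) * P p := by
  unfold V
  split_ifs with h1
  · have : ‖P p‖ = ρ := le_antisymm h1 h
    rw [this, div_self ρ0.ne']
    simp
  · rfl

theorem keyW {p p' : E3} (hp : p ∈ W) (hp' : p' ∈ W) :
    ‖V p - V p'‖ ^ 2 + (tt p - tt p') ^ 2 ≤ Q p p' := by
  obtain ⟨h1, h2⟩ := hp
  obtain ⟨h1', h2'⟩ := hp'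
  have hr := rim h1
  have hr' := rim h1'
  have hc := Real.one_le_cosh (p 0)
  have hc' := Real.one_le_cosh (p' 0)
  have ha : ρ ≤ ‖P p‖ := by rw [hr]; linarith
  have ha' : ρ ≤ ‖P p'‖ := by rw [hr']; linarith
  have et : tt p = η - |p 2| := by
    unfold tt rt
    rw [if_pos h1, max_eq_left (by linarith)]
    ring
  have et' : tt p' = η - |p' 2| := by
    unfold tt rt
    rw [if_pos h1', max_eq_left (by linarith)]
    ring
  have hρ := ρ0
  have hpos : 0 < ‖P p‖ := by linarith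
  have hpos' : 0 < ‖P p'‖ := by linarith
  have hzz : (|p 2| - |p' 2|) ^ 2 ≤ (p 2 - p' 2) ^ 2 := by
    have := abs_abs_sub_abs_le_abs_sub (p 2) (p' 2)
    rw [← sq_abs (|p 2| - |p' 2|), ← sq_abs (p 2 - p' 2)]
    exact pow_le_pow_left₀ (abs_nonneg _) this 2
  have hPP := PP p p'
  have e2 := nsub 1 1 (P p) (P p')
  rw [Complex.ofReal_one, one_mul, one_mul] at e2
  rw [V_W ha, V_W ha', nsub, et, et']
  unfold Q
  rw [hyp]
  rw [e2] at hPP
  set r := ‖P p‖ with hrr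
  set r' := ‖P p'‖ with hrr'
  set d := (P p).re * (P p').re + (P p).im * (P p').im with hd
  have hcs : d ≤ r * r' := cs (P p) (P p')
  have e3 : (ρ / r) ^ 2 * r ^ 2 = ρ ^ 2 := by
    field_simp
  have e3' : (ρ / r') ^ 2 * r' ^ 2 = ρ ^ 2 := by
    field_simp
  have e4 : 2 * (ρ / r) * (ρ / r') * d = (2 * ρ ^ 2) * (d / (r * r')) := by
    field_simp
  rw [e3, e3', e4]
  have hrr1 : ρ ^ 2 ≤ r * r' := by nlinarith
  have hrr0 : 0 < r * r' := mul_pos hpos hpos'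
  have hq : d / (r * r') ≤ 1 := by
    rw [div_le_one hrr0]; exact hcs
  have hq2 : d / (r * r') * (r * r') = d := by field_simp
  have hrd : Real.cosh (p 0) - Real.cosh (p' 0) = r - r' := by
    rw [hr, hr']; ring
  have hmul := mul_nonneg (sub_nonneg.2 hq) (sub_nonneg.2 hrr1)
  rw [hrd]
  nlinarith

end KE

theorem taskKE : TaskKE := by
  intro p p' h
  rcases h with ⟨h, h'⟩ | ⟨h, h'⟩ | ⟨h, h'⟩
  · obtain ⟨h1, h2⟩ := h
    obtain ⟨h1', h2'⟩ := h'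
    have a := KE.absz h1
    have a' := KE.absz h1'
    refine KE.keyTB (KE.rt_TB h1 (by rw [h2, abs_of_nonneg a]))
      (KE.rt_TB h1' (by rw [h2', abs_of_nonneg a'])) ?_
    rw [h2, h2']
    ring
  · obtain ⟨h1, h2⟩ := h
    obtain ⟨h1', h2'⟩ := h'
    have a := KE.absz h1
    have a' := KE.absz h1'
    refine KE.keyTB (KE.rt_TB h1 (by rw [h2, abs_neg, abs_of_nonneg a]))
      (KE.rt_TB h1' (by rw [h2', abs_neg, abs_of_nonneg a'])) ?_
    rw [h2, h2']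
    ring
  · exact KE.keyW h h'

end Pool.Agent.Y876.ST
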